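import Pool.Agent.H.MP_6c077c_gt.Wn.GModel
import Pool.Agent.H.MP_6c077c_gt.Al.SCutC
import Pool.Agent.H.MP_6c077c_gt.Al.Cls2
import Pool.Agent.H.MP_6c077c_gt.IxB.T1

/-! Cancellation: passing to the model at a saddle, with control of all horizontal zeros. -/

set_option autoImplicit false

namespace Pool.Schoen

open Filter Set
open scoped Topology RealInnerProductSpace ContDiff

variable {V : Type*} [NormedAddCommGroup V] [InnerProductSpace ℝ V] [FiniteDimensional ℝ V]

omit [FiniteDimensional ℝ V] in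
private theorem Mdl_orth {e w : V} (h : ⟪w, e⟫ = 0) : orth e w = w := by
  unfold orth
  rw [real_inner_comm, h, zero_smul, sub_zero]

omit [FiniteDimensional ℝ V] in
/-- The second derivative of the model. -/
theorem mdl0_hess {B : V →L[ℝ] V →L[ℝ] ℝ} (hs : ∀ v w, B v w = B w v) (μ : ℝ) (e p x w v : V) :
    fderiv ℝ (fderiv ℝ (mdl0 B μ e p)) x w v = B (orth e w) (orth e v) := by
  obtain ⟨L, hL⟩ : ∃ L : V →L[ℝ] V, ∀ y, L y = orth e y :=
    ⟨ContinuousLinearMap.id ℝ V - (innerSL ℝ e).smulRight e, fun y => by simp [orth]⟩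
  have h1 : ∀ y, fderiv ℝ (mdl0 B μ e p) y v = -(μ * ⟪e, v⟫) + B (L v) (L (y - p)) := by
    intro y
    rw [mdl0_fderiv, hL, hL, hs (orth e (y - p)) (orth e v)]
    ring
  have h2 : ContDiff ℝ ∞ (fderiv ℝ (mdl0 B μ e p)) :=
    (mdl0_contDiff B μ e p).fderiv_right (by simp)
  have h3 : HasFDerivAt (fderiv ℝ (mdl0 B μ e p)) (fderiv ℝ (fderiv ℝ (mdl0 B μ e p)) x) x :=
    (h2.differentiable (by simp) x).hasFDerivAt
  have h4 : HasFDerivAt (fun y => fderiv ℝ (mdl0 B μ e p) y v)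
      ((fderiv ℝ (fderiv ℝ (mdl0 B μ e p)) x).flip v) x := by
    have h5 := h3.clm_apply (hasFDerivAt_const v x)
    rwa [ContinuousLinearMap.comp_zero, zero_add] at h5
  have h5 : HasFDerivAt (fun y => -(μ * ⟪e, v⟫) + B (L v) (L (y - p))) ((B (L v)).comp L) x := by
    have h6 : HasFDerivAt (fun y : V => y - p) (ContinuousLinearMap.id ℝ V) x :=
      (hasFDerivAt_id x).sub_const p
    have h7 := (B (L v)).hasFDerivAt.comp x (L.hasFDerivAt.comp x h6)
    have h8 := h7.const_add (-(μ * ⟪e, v⟫))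
    rw [ContinuousLinearMap.comp_id] at h8
    exact h8
  have h6 : (fun y => fderiv ℝ (mdl0 B μ e p) y v) = fun y => -(μ * ⟪e, v⟫) + B (L v) (L (y - p)) :=
    funext h1
  rw [h6] at h4
  have h7 := DFunLike.congr_fun (h4.unique h5) w
  rw [ContinuousLinearMap.flip_apply] at h7
  rw [h7, ContinuousLinearMap.comp_apply, hL, hL, hs]

/-- **Model at a tube.** -/
theorem model_mo {f : V → ℝ} {e p : V} (he : ‖e‖ = 1) (hm : Mo f e) (hp : Inward f e p)
    (hi : Idx f e p 1) {r₁ : ℝ} (hr₁ : 0 < r₁) :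
    ∃ (g : V → ℝ) (u : V) (B : V →L[ℝ] V →L[ℝ] ℝ) (μ a R r : ℝ), 0 < R ∧ R ≤ r₁ ∧ r ≤ R ∧
      Mo g e ∧ Hom f g ∧ Inward g e p ∧ (∀ k, Idx f e p k → Idx g e p k) ∧
      (∀ x, R ≤ ‖x - p‖ → f =ᶠ[𝓝 x] g) ∧
      (∀ x, Crit g e x → ‖x - p‖ < R → x = p) ∧
      Mod1 g e u p B μ a r := by
  classical
  have hin : Inw f e p := inw_of_idx f hm.smooth e p hp 1 le_rfl hi
  obtain ⟨μ, hμ0, hμ⟩ := hin.grad
  obtain ⟨C, hC, hcut⟩ := cutoff_exists V p
  obtain ⟨r0, hr0, hzero⟩ := model_zero he hin hμ0 hμ C hC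
  obtain ⟨K, hK, hcl⟩ := mdl_close he hin.smooth hin.zero hμ
  obtain ⟨r2, hr2, hclose⟩ := hcl 1 one_pos
  have hsym : ∀ w w' : V, fderiv ℝ (fderiv ℝ f) p w w' = fderiv ℝ (fderiv ℝ f) p w' w :=
    hin.smooth.isSymmSndFDerivAt (by simp)
  have hee : ⟪e, e⟫ = 1 := by rw [real_inner_self_eq_norm_sq, he]; norm_num
  -- the derivative in the direction `e`
  obtain ⟨r3, hr3, hder⟩ : ∃ r3 : ℝ, 0 < r3 ∧ ∀ x, ‖x - p‖ < r3 → fderiv ℝ f x e < -(μ / 2) := by
    have h1 : Continuous fun x => fderiv ℝ f x e :=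
      (hm.smooth.continuous_fderiv (by simp)).clm_apply continuous_const
    have h2 : ∀ᶠ x in 𝓝 p, fderiv ℝ f x e < -(μ / 2) := by
      apply h1.continuousAt.eventually_lt_const
      show fderiv ℝ f p e < _
      rw [hμ, hee]
      linarith
    obtain ⟨r3, h3, h4⟩ := Metric.eventually_nhds_iff_ball.1 h2
    exact ⟨r3, h3, fun x hx => h4 x (by rw [Metric.mem_ball, dist_eq_norm]; exact hx)⟩
  obtain ⟨r, hr, hrr0, hrr₁, hrr2, hrr3, hrC⟩ : ∃ r : ℝ, 0 < r ∧ r < r0 ∧ r ≤ r₁ ∧ r ≤ r2 ∧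
      r ≤ r3 ∧ C * ((K + 1) * r) ≤ μ / 4 := by
    refine ⟨min (min (r0 / 2) r₁) (min (min r2 r3) (μ / (4 * (C * (K + 1))))), by positivity,
      ?_, ?_, ?_, ?_, ?_⟩
    · have := (min_le_left (min (r0 / 2) r₁) (min (min r2 r3) (μ / (4 * (C * (K + 1)))))).trans
        (min_le_left _ _)
      linarith
    · exact (min_le_left _ _).trans (min_le_right _ _)
    · exact ((min_le_right _ _).trans (min_le_left _ _)).trans (min_le_left _ _)
    · exact ((min_le_right _ _).trans (min_le_left _ _)).trans (min_le_right _ _)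
    · have h1 := (min_le_right (min (r0 / 2) r₁) (min (min r2 r3) (μ / (4 * (C * (K + 1)))))).trans
        (min_le_right _ _)
      rw [le_div_iff₀ (by positivity)] at h1
      linarith
  obtain ⟨hsm, hz⟩ := hzero r hr hrr0
  obtain ⟨χ, hχ, hχ01, hχ1, hχ0, hχd⟩ := hcut r hr
  have hz' := hz χ hχ hχ01 hχd
  have hmC : ContDiff ℝ ∞ (mdl0 (fderiv ℝ (fderiv ℝ f) p) μ e p) := mdl0_contDiff _ _ _ _
  obtain ⟨m, hmd⟩ : ∃ m, m = mdl0 (fderiv ℝ (fderiv ℝ f) p) μ e p := ⟨_, rfl⟩
  rw [← hmd] at hz' hclose hmC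
  have hmI : ∀ t : ℝ, Inw (fun x => f x + t * (χ x * (m x - f x))) e p := by
    intro t
    rw [hmd]
    refine model_inw he hin hμ0 hμ ?_ t
    filter_upwards [Metric.ball_mem_nhds p (show 0 < r / 4 by positivity)] with x hx
    apply hχ1
    rw [← dist_eq_norm]
    exact (Metric.mem_ball.1 hx).le
  obtain ⟨g, hg⟩ : ∃ g : V → ℝ, g = fun x => f x + 1 * (χ x * (m x - f x)) := ⟨_, rfl⟩
  have hGs : ∀ t : ℝ, ContDiff ℝ ∞ fun x => f x + t * (χ x * (m x - f x)) := fun t =>
    hm.smooth.add (contDiff_const.mul (hχ.mul (hmC.sub hm.smooth)))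
  have hG2 : ContDiff ℝ ∞ fun q : ℝ × V => f q.2 + q.1 * (χ q.2 * (m q.2 - f q.2)) :=
    (hm.smooth.comp contDiff_snd).add (contDiff_fst.mul ((hχ.comp contDiff_snd).mul
      ((hmC.comp contDiff_snd).sub (hm.smooth.comp contDiff_snd))))
  have hgs : ContDiff ℝ ∞ g := by
    rw [hg]
    exact hGs 1
  -- outside of the ball
  have hout : ∀ x, r ≤ ‖x - p‖ → ∀ᶠ y in 𝓝 x, χ y = 0 := by
    intro x hx
    have hc : Continuous fun y : V => ‖y - p‖ := by fun_prop
    have h1 : ∀ᶠ y in 𝓝 x, r / 2 < ‖y - p‖ :=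
      hc.continuousAt.eventually (lt_mem_nhds (by linarith))
    filter_upwards [h1] with y hy
    exact hχ0 y hy.le
  have hout' : ∀ x, r ≤ ‖x - p‖ → f =ᶠ[𝓝 x] g := by
    intro x hx
    filter_upwards [hout x hx] with y hy
    rw [hg]
    show f y = f y + 1 * (χ y * (m y - f y))
    rw [hy]
    ring
  have hbdd : Bornology.IsBounded ({x | f x = 0} ∪ Metric.ball p r) :=
    hm.bdd.union Metric.isBounded_ball
  have hbd : ∀ t x, f x + t * (χ x * (m x - f x)) = 0 → x ∈ {x | f x = 0} ∪ Metric.ball p r := by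
    intro t x hx
    by_cases hxr : ‖x - p‖ < r
    · right
      rw [Metric.mem_ball, dist_eq_norm]
      exact hxr
    · left
      rw [hχ0 x (by linarith [not_lt.1 hxr])] at hx
      have : f x = 0 := by linarith
      exact this
  -- a direction in the ball
  have hdir : ∀ t ∈ Icc (0 : ℝ) 1, ∀ x, ‖x - p‖ < r → f x + t * (χ x * (m x - f x)) = 0 →
      ∃ v, fderiv ℝ (fun x => f x + t * (χ x * (m x - f x))) x v < 0 := by
    intro t ht x hxr hx
    by_cases hxp : x = p
    · obtain ⟨μ', hμ', hgr⟩ := (hmI t).grad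
      refine ⟨e, ?_⟩
      rw [hxp, hgr e, hee]
      linarith
    · obtain ⟨v, _, hv⟩ := hz' t ht x hxp hxr hx
      exact ⟨v, hv⟩
  have hreg : ∀ x, g x = 0 → gradient g x ≠ 0 := by
    intro x hx h0
    by_cases hxr : ‖x - p‖ < r
    · have hx' : f x + 1 * (χ x * (m x - f x)) = 0 := by
        rw [hg] at hx
        exact hx
      obtain ⟨v, hv⟩ := hdir 1 ⟨zero_le_one, le_rfl⟩ x hxr hx'
      rw [← hg, fderiv_eq_inner_gradient, h0, inner_zero_left] at hv
      exact lt_irrefl _ hv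
    · have h1 := hout' x (not_lt.1 hxr)
      have h2 : gradient g x = gradient f x := by
        unfold gradient
        rw [h1.fderiv_eq]
      rw [h2] at h0
      exact hm.reg x (by rw [h1.self_of_nhds]; exact hx) h0
  have hHom : Hom f g := by
    refine ⟨fun t x => f x + t * (χ x * (m x - f x)), hG2.continuous, ?_, ?_, ?_, ?_⟩
    · funext x
      ring
    · rw [hg]
    · obtain ⟨R, hR⟩ := hbdd.exists_norm_le
      exact ⟨R, fun t _ x hx => hR x (hbd t x hx)⟩
    · intro t ht x hx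
      have hv : ∃ v, fderiv ℝ (fun x => f x + t * (χ x * (m x - f x))) x v < 0 := by
        by_cases hxr : ‖x - p‖ < r
        · exact hdir t ht x hxr hx
        · have hxr' := not_lt.1 hxr
          have h1 : (fun y => f y + t * (χ y * (m y - f y))) =ᶠ[𝓝 x] f := by
            filter_upwards [hout x hxr'] with y hy
            rw [hy]
            ring
          have hfx : f x = 0 := by
            have := h1.self_of_nhds
            simp only at this
            rw [← this]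
            exact hx
          refine ⟨-gradient f x, ?_⟩
          rw [h1.fderiv_eq, fderiv_eq_inner_gradient, inner_neg_right, real_inner_self_eq_norm_sq]
          have := norm_pos_iff.2 (hm.reg x hfx)
          have : 0 < ‖gradient f x‖ ^ 2 := by positivity
          linarith
      obtain ⟨v, hv⟩ := hv
      refine ⟨v, (?_ : Desc _ (𝓝 t) x v).mono nhdsWithin_le_nhds⟩
      have hG1 : ContDiffAt ℝ 1 (fun q : ℝ × V => f q.2 + q.1 * (χ q.2 * (m q.2 - f q.2))) (t, x) :=
        (hG2.of_le (by exact_mod_cast le_top)).contDiffAt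
      refine desc_smooth hG1 (v := v) ?_
      have h1 := ((hG1.differentiableAt (by simp))).hasFDerivAt
      have h2 : HasFDerivAt (fun y : V => (t, y)) (ContinuousLinearMap.inr ℝ ℝ V) x :=
        hasFDerivAt_prodMk_right t x
      have h3 := h1.comp x h2
      have h4 : fderiv ℝ (fun y => f y + t * (χ y * (m y - f y))) x = _ := h3.fderiv
      rw [h4] at hv
      exact hv
  -- near `p`
  have hgm : ∀ x, ‖x - p‖ < r / 4 → g x = m x := by
    intro x hx
    rw [hg]
    simp only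
    rw [hχ1 x hx.le]
    ring
  have hgm' : g =ᶠ[𝓝 p] m := by
    filter_upwards [Metric.ball_mem_nhds p (show 0 < r / 4 by positivity)] with x hx
    exact hgm x (by rw [← dist_eq_norm]; exact hx)
  have hInw : Inw g e p := by
    rw [hg]
    exact hmI 1
  have hInward : Inward g e p := by
    obtain ⟨μ', hμ', hgr⟩ := hInw.grad
    refine ⟨hInw.zero, μ', hμ', ?_⟩
    refine ext_inner_right ℝ fun v => ?_
    rw [← fderiv_eq_inner_gradient, hgr, inner_neg_left, real_inner_smul_left]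
  have hIdx : ∀ k, Idx f e p k → Idx g e p k := by
    rintro k ⟨N, P, hs, hk⟩
    have h1 : ∀ a b, ⟪a, e⟫ = 0 → ⟪b, e⟫ = 0 →
        fderiv ℝ (fderiv ℝ g) p a b = fderiv ℝ (fderiv ℝ f) p a b := by
      intro a b ha hb
      rw [hgm'.fderiv.fderiv_eq, hmd, mdl0_hess hsym, Mdl_orth ha, Mdl_orth hb]
    refine ⟨N, P, ⟨hs.hN, hs.hP, hs.orth, hs.span, fun a ha b hb => ?_, fun a ha h0 => ?_,
      fun b hb h0 => ?_⟩, hk⟩
    · rw [h1 a b (hs.hN a ha) (hs.hP b hb)]
      exact hs.diag a ha b hb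
    · rw [h1 a a (hs.hN a ha) (hs.hN a ha)]
      exact hs.neg a ha h0
    · rw [h1 b b (hs.hP b hb) (hs.hP b hb)]
      exact hs.pos b hb h0
  have hcrit : ∀ x, Crit g e x → ‖x - p‖ < r → x = p := by
    intro x hx hxr
    by_contra hxp
    obtain ⟨l, hl⟩ := hx.vert he
    have hx' : f x + 1 * (χ x * (m x - f x)) = 0 := by
      have := hx.1
      rw [hg] at this
      exact this
    obtain ⟨v, hv1, hv2⟩ := hz' 1 ⟨zero_le_one, le_rfl⟩ x hxp hxr hx'
    rw [← hg, fderiv_eq_inner_gradient, hl, real_inner_smul_left] at hv2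
    have hl0 : 0 < l := by
      by_contra h0
      have := mul_nonneg_of_nonpos_of_nonpos (not_lt.1 h0) hv1.le
      linarith
    have hle : fderiv ℝ g x e = l := by
      rw [fderiv_eq_inner_gradient, hl, real_inner_smul_left, hee, mul_one]
    -- the derivative in the direction `e`
    have hfx : HasFDerivAt f (fderiv ℝ f x) x := (hm.smooth.differentiable (by simp) x).hasFDerivAt
    have hmx : HasFDerivAt m (fderiv ℝ m x) x := (hmC.differentiable (by simp) x).hasFDerivAt
    have hχx : HasFDerivAt χ (fderiv ℝ χ x) x := (hχ.differentiable (by simp) x).hasFDerivAt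
    have h1 := hfx.add ((hχx.mul (hmx.sub hfx)).const_mul 1)
    have h2 : fderiv ℝ (fun x => f x + 1 * (χ x * (m x - f x))) x = _ := h1.fderiv
    rw [← hg] at h2
    have h3 : fderiv ℝ g x e = fderiv ℝ f x e + (χ x * (fderiv ℝ m x e - fderiv ℝ f x e) +
        (m x - f x) * fderiv ℝ χ x e) := by
      rw [h2]
      simp
    have h4 : fderiv ℝ m x e = -μ := by
      rw [hmd, mdl0_fderiv, hee]
      have h5 : orth e e = 0 := by
        unfold orth
        rw [hee, one_smul, sub_self]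
      rw [h5, map_zero, map_zero, _root_.zero_apply]
      ring
    have h5 := hder x (hxr.trans_le hrr3)
    obtain ⟨-, h6, -⟩ := hclose x (hxr.trans_le hrr2)
    have h7 : |m x - f x| ≤ (K + 1) * r ^ 2 := by
      refine h6.trans ?_
      have h8 : |⟪e, x - p⟫| ≤ ‖x - p‖ := by
        have := abs_real_inner_le_norm e (x - p)
        rwa [he, one_mul] at this
      have h9 : ‖x - p‖ ^ 2 ≤ r ^ 2 := pow_le_pow_left₀ (norm_nonneg _) hxr.le 2
      have h10 : K * |⟪e, x - p⟫| * ‖x - p‖ ≤ K * ‖x - p‖ ^ 2 := by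
        rw [mul_assoc, sq]
        exact mul_le_mul_of_nonneg_left (mul_le_mul_of_nonneg_right h8 (norm_nonneg _)) hK.le
      nlinarith
    have h8 : |fderiv ℝ χ x e| ≤ C / r := by
      have h9 := (fderiv ℝ χ x).le_opNorm e
      rw [he, mul_one, Real.norm_eq_abs] at h9
      exact h9.trans (hχd x)
    have h9 : (m x - f x) * fderiv ℝ χ x e ≤ μ / 4 := by
      refine (le_abs_self _).trans ?_
      rw [abs_mul]
      have h10 : |m x - f x| * |fderiv ℝ χ x e| ≤ (K + 1) * r ^ 2 * (C / r) :=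
        mul_le_mul h7 h8 (abs_nonneg _) (by positivity)
      have h11 : (K + 1) * r ^ 2 * (C / r) = C * ((K + 1) * r) := by field_simp
      linarith
    obtain ⟨hc0, hc1⟩ := hχ01 x
    rw [hle, h4] at h3
    have h12 : (1 - χ x) * fderiv ℝ f x e ≤ (1 - χ x) * (-(μ / 2)) :=
      mul_le_mul_of_nonneg_left h5.le (by linarith)
    nlinarith
  have hMo : Mo g e := by
    refine ⟨hgs, ?_, hreg, fun x hx => ?_⟩
    · refine hbdd.subset fun x hx => ?_
      have hx' : g x = 0 := hx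
      rw [hg] at hx'
      exact hbd 1 x hx'
    · by_cases hxr : ‖x - p‖ < r
      · rw [hcrit x hx hxr]
        exact ⟨1, hIdx 1 hi⟩
      · have h1 := hout' x (not_lt.1 hxr)
        obtain ⟨k, hk⟩ := hm.nd x (hx.congr h1.symm)
        exact ⟨k, Idx.congr' h1 hk⟩
  have hcases := @model_cases' V _ _ _ f g e p he hin μ (r / 4) hμ0 (by positivity)
    (fun x hx => by rw [hgm x hx, hmd])
  rcases hcases with h1 | ⟨u, B, a, h1⟩
  · exfalso
    obtain ⟨N, P, hs, hk⟩ := hi
    obtain ⟨⟨u0, hu0N⟩, hu0, -⟩ := (finrank_eq_one_iff' (K := ℝ) (V := N)).1 hk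
    have hu0' : u0 ≠ 0 := fun h => hu0 (by
      apply Subtype.ext
      exact h)
    have h2 := h1.hB u0 (by rw [real_inner_comm]; exact hs.hN u0 hu0N) hu0'
    have h3 := hs.neg u0 hu0N hu0'
    linarith
  · exact ⟨g, u, B, μ, a, r, r / 4, hr, hrr₁, by linarith, hMo, hHom, hInward, hIdx, hout', hcrit,
      h1⟩

end Pool.Schoen
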