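import Pool.Agent.H.MP_6c077c_gt.Ca.SMax
import Pool.Agent.H.MP_6c077c_gt.Ix.HomB

/-! Cancellation: a body is pushed along a graph. -/

set_option autoImplicit false

namespace Pool.Schoen

open Filter Set
open scoped Topology RealInnerProductSpace ContDiff

variable {V : Type*} [NormedAddCommGroup V] [InnerProductSpace ℝ V] [FiniteDimensional ℝ V]
variable {C G : V → ℝ} {ν : ℝ}

private theorem Push_pos {X : Type*} [TopologicalSpace X] {S : Set X} (hS : IsCompact S) {M : X → ℝ}
    (hM : Continuous M) (h : ∀ x ∈ S, 0 < M x) : ∃ γ : ℝ, 0 < γ ∧ ∀ x ∈ S, γ ≤ M x := by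
  rcases S.eq_empty_or_nonempty with h0 | h0
  · exact ⟨1, one_pos, fun x hx => by rw [h0] at hx; exact absurd hx (notMem_empty x)⟩
  · obtain ⟨m, hm, hmin⟩ := hS.exists_isMinOn h0 hM.continuousOn
    exact ⟨M m, h m hm, fun x hx => hmin hx⟩

omit [FiniteDimensional ℝ V] in
private theorem Push_fd (hC : ContDiff ℝ ∞ C) (hG : ContDiff ℝ ∞ G) (ν t : ℝ) (hν : 0 < ν) (x : V) :
    HasFDerivAt (fun y => smax2 ν (C y) (G y - t))
      ((1 - deriv smx ((G x - t - C x) / ν)) • fderiv ℝ C x +
        deriv smx ((G x - t - C x) / ν) • fderiv ℝ G x) x := by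
  have h1 := (hC.differentiable (by simp) x).hasFDerivAt
  have h2 := (hG.differentiable (by simp) x).hasFDerivAt
  have h3 : HasFDerivAt (fun y => (G y - t - C y) / ν) (ν⁻¹ • (fderiv ℝ G x - fderiv ℝ C x)) x := by
    have h4 := ((h2.sub_const t).sub h1).const_mul ν⁻¹
    have h5 : (fun y => (G y - t - C y) / ν) = fun y => ν⁻¹ * (G y - t - C y) := by
      funext y
      rw [div_eq_inv_mul]
    rw [h5]
    exact h4
  have h6 : HasDerivAt smx (deriv smx ((G x - t - C x) / ν)) ((G x - t - C x) / ν) :=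
    (smx_contDiff.differentiable (by simp) _).hasDerivAt
  have h7 := h1.add ((h6.comp_hasFDerivAt x h3).const_mul ν)
  unfold smax2
  refine h7.congr_fderiv ?_
  ext z
  simp
  field_simp
  ring

omit [FiniteDimensional ℝ V] in
private theorem Push_joint (hC : ContDiff ℝ ∞ C) (hG : ContDiff ℝ ∞ G) (ν : ℝ) :
    ContDiff ℝ ∞ fun p : ℝ × V => smax2 ν (C p.2) (G p.2 - (2 * ν + p.1)) := by
  unfold smax2
  have h1 : ContDiff ℝ ∞ fun p : ℝ × V => C p.2 := hC.comp contDiff_snd
  have h2 : ContDiff ℝ ∞ fun p : ℝ × V => G p.2 := hG.comp contDiff_snd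
  exact h1.add (contDiff_const.mul (smx_contDiff.comp
    (((h2.sub (contDiff_const.add contDiff_fst)).sub h1).div_const _)))

omit [NormedAddCommGroup V] [InnerProductSpace ℝ V] [FiniteDimensional ℝ V] in
/-- Below the graph the new body is the old one. -/
private theorem Push_low (hν : 0 < ν) {x : V} {t : ℝ} (h : G x - t ≤ -(2 * ν)) :
    (smax2 ν (C x) (G x - t) ≤ 0 ↔ C x ≤ 0) ∧ (smax2 ν (C x) (G x - t) = 0 ↔ C x = 0) := by
  have h1 : C x ≤ smax2 ν (C x) (G x - t) := le_smax2_left hν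
  have h2 : smax2 ν (C x) (G x - t) ≤ max (C x) (G x - t + ν) := smax2_le hν
  have h3 : max (C x) (G x - t + ν) ≤ max (C x) (-ν) := max_le_max le_rfl (by linarith)
  refine ⟨⟨fun h4 => h1.trans h4, fun h4 => h2.trans (h3.trans (max_le h4 (by linarith)))⟩,
    fun h4 => ?_, fun h4 => ?_⟩
  · refine le_antisymm (h1.trans h4.le) ?_
    by_contra h5
    push Not at h5
    have h6 : max (C x) (-ν) < 0 := max_lt h5 (by linarith)
    linarith
  · rw [smax2_left hν (by linarith), h4]

/-- PROOF. `F = smax2 ν C (G - 2 ν)` for a small `ν`; the family `smax2 ν C (G - 2 ν - τ)`. -/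
theorem push {C G : V → ℝ} (hC : ContDiff ℝ ∞ C) (hG : ContDiff ℝ ∞ G) {e : V} (he : ‖e‖ = 1)
    (hb : Bornology.IsBounded {x | C x = 0}) (hreg : ∀ x, C x = 0 → gradient C x ≠ 0)
    (hcomp : Bornology.IsBounded {x | C x ≤ 0 ∧ 0 ≤ G x})
    (h1 : ∀ x, C x = 0 → 0 ≤ G x → fderiv ℝ C x e ≤ 0)
    (h2 : ∀ x, C x ≤ 0 → 0 ≤ G x → fderiv ℝ G x e < 0)
    (h3 : ∀ x, C x ≤ 0 → G x = 0 → ∀ l : ℝ, gradient G x ≠ l • e)
    (h4 : ∀ x, C x = 0 → G x = 0 → ∀ θ ∈ Icc (0 : ℝ) 1, ∀ l : ℝ,
      (1 - θ) • gradient C x + θ • gradient G x ≠ l • e) {ε : ℝ} (hε : 0 < ε) :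
    ∃ F : V → ℝ, ContDiff ℝ ∞ F ∧ Hom C F ∧ (∀ x, C x ≤ F x) ∧
      (∀ x, G x < 0 → (F x ≤ 0 ↔ C x ≤ 0)) ∧
      (∀ x, G x < 0 → (C x = 0 ∨ F x = 0) → F =ᶠ[𝓝 x] C) ∧
      ∀ x, F x = 0 → 0 ≤ G x → G x < ε ∧ ∀ l : ℝ, gradient F x ≠ l • e := by
  have : ProperSpace V := FiniteDimensional.proper ℝ V
  have hCc := hC.continuous
  have hGc := hG.continuous
  have hCd : Continuous (fderiv ℝ C) := hC.continuous_fderiv (by simp)
  have hGd : Continuous (fderiv ℝ G) := hG.continuous_fderiv (by simp)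
  have hCg : Continuous (gradient C) :=
    (InnerProductSpace.toDual ℝ V).symm.continuous.comp hCd
  have hGg : Continuous (gradient G) :=
    (InnerProductSpace.toDual ℝ V).symm.continuous.comp hGd
  have hinn : ∀ (F : V → ℝ) (x z : V), ⟪gradient F x, z⟫ = fderiv ℝ F x z := by
    intro F x z
    rw [gradient, InnerProductSpace.toDual_symm_apply]
  have hee : ⟪e, e⟫ = 1 := by rw [real_inner_self_eq_norm_sq, he]; norm_num
  have hreg' : ∀ x, C x = 0 → fderiv ℝ C x ≠ 0 := by
    intro x hx h0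
    refine hreg x hx ?_
    rw [gradient, h0, map_zero]
  have hK : IsCompact {x | C x ≤ 0 ∧ 0 ≤ G x} :=
    Metric.isCompact_of_isClosed_isBounded
      ((isClosed_le hCc continuous_const).inter (isClosed_le continuous_const hGc)) hcomp
  -- the bad sets
  obtain ⟨γ₁, hγ₁, hB₁⟩ : ∃ γ : ℝ, 0 < γ ∧ ∀ x ∈ {x | C x ≤ 0 ∧ 0 ≤ G x} ∩
      {x | gradient G x - ⟪e, gradient G x⟫ • e = 0}, γ ≤ G x := by
    refine Push_pos (hK.inter_right (isClosed_eq ?_ continuous_const)) hGc fun x hx => ?_
    · exact hGg.sub ((continuous_const.inner hGg).smul continuous_const)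
    · refine lt_of_le_of_ne hx.1.2 fun h0 => ?_
      exact h3 x hx.1.1 h0.symm _ (sub_eq_zero.1 hx.2)
  have hcomb : Continuous fun p : V × ℝ => (1 - p.2) • gradient C p.1 + p.2 • gradient G p.1 :=
    ((continuous_const.sub continuous_snd).smul (hCg.comp continuous_fst)).add
      (continuous_snd.smul (hGg.comp continuous_fst))
  have hK2 : IsCompact ({x | C x ≤ 0 ∧ 0 ≤ G x} ×ˢ Icc (0 : ℝ) 1) := hK.prod isCompact_Icc
  obtain ⟨γ₂, hγ₂, hB₂⟩ : ∃ γ : ℝ, 0 < γ ∧ ∀ p ∈ ({x | C x ≤ 0 ∧ 0 ≤ G x} ×ˢ Icc (0 : ℝ) 1) ∩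
      {p : V × ℝ | ((1 - p.2) • gradient C p.1 + p.2 • gradient G p.1) -
        ⟪e, (1 - p.2) • gradient C p.1 + p.2 • gradient G p.1⟫ • e = 0}, γ ≤ G p.1 - C p.1 := by
    refine Push_pos (hK2.inter_right (isClosed_eq ?_ continuous_const))
      ((hGc.comp continuous_fst).sub (hCc.comp continuous_fst)) ?_
    · exact hcomb.sub ((continuous_const.inner hcomb).smul continuous_const)
    · rintro ⟨x, θ⟩ ⟨⟨⟨hx1, hx2⟩, hθ⟩, hx3⟩
      have hx1' : C x ≤ 0 := hx1
      have hx2' : 0 ≤ G x := hx2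
      show 0 < G x - C x
      by_contra h0
      push Not at h0
      exact h4 x (by linarith) (by linarith) θ hθ _ (sub_eq_zero.1 hx3)
  obtain ⟨γ₃, hγ₃, hB₃⟩ : ∃ γ : ℝ, 0 < γ ∧ ∀ p ∈ ({x | C x ≤ 0 ∧ 0 ≤ G x} ×ˢ Icc (0 : ℝ) 1) ∩
      {p : V × ℝ | (1 - p.2) • gradient C p.1 + p.2 • gradient G p.1 = 0}, γ ≤ -C p.1 := by
    refine Push_pos (hK2.inter_right (isClosed_eq hcomb continuous_const))
      (hCc.comp continuous_fst).neg ?_
    rintro ⟨x, θ⟩ ⟨⟨⟨hx1, hx2⟩, hθ⟩, hx3⟩
    have hx1' : C x ≤ 0 := hx1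
    have hx2' : 0 ≤ G x := hx2
    have hθ1 : (0 : ℝ) ≤ θ := hθ.1
    have hθ2 : θ ≤ 1 := hθ.2
    show 0 < -C x
    by_contra h0
    push Not at h0
    have hCx : C x = 0 := by linarith
    have e1 : ⟪(1 - θ) • gradient C x + θ • gradient G x, e⟫ = 0 := by
      have e2 : (1 - θ) • gradient C x + θ • gradient G x = 0 := hx3
      rw [e2, inner_zero_left]
    rw [inner_add_left, real_inner_smul_left, real_inner_smul_left, hinn, hinn] at e1
    have e2 := h1 x hCx hx2'
    have e3 := h2 x hx1' hx2'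
    rcases hθ1.lt_or_eq with h5 | h5
    · have e4 : θ * fderiv ℝ G x e < 0 := mul_neg_of_pos_of_neg h5 e3
      have e5 : (1 - θ) * fderiv ℝ C x e ≤ 0 :=
        mul_nonpos_of_nonneg_of_nonpos (by linarith) e2
      linarith
    · have e2 : (1 - θ) • gradient C x + θ • gradient G x = 0 := hx3
      rw [← h5, sub_zero, one_smul, zero_smul, add_zero] at e2
      exact hreg x hCx e2
  -- the constant
  obtain ⟨ν, hν, hν1, hν2, hν3, hνε⟩ : ∃ ν : ℝ, 0 < ν ∧ 3 * ν ≤ γ₁ ∧ 6 * ν ≤ γ₂ ∧ 3 * ν ≤ γ₃ ∧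
      3 * ν ≤ ε := by
    refine ⟨min (min γ₁ γ₂) (min γ₃ ε) / 6, ?_, ?_, ?_, ?_, ?_⟩
    · have := lt_min (lt_min hγ₁ hγ₂) (lt_min hγ₃ hε)
      linarith
    · have := (min_le_left (min γ₁ γ₂) (min γ₃ ε)).trans (min_le_left _ _)
      linarith
    · have := (min_le_left (min γ₁ γ₂) (min γ₃ ε)).trans (min_le_right _ _)
      linarith
    · have := (min_le_right (min γ₁ γ₂) (min γ₃ ε)).trans (min_le_left _ _)
      linarith
    · have := (min_le_right (min γ₁ γ₂) (min γ₃ ε)).trans (min_le_right _ _)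
      linarith
  obtain ⟨F, hF⟩ : ∃ F : V → ℝ, F = fun x => smax2 ν (C x) (G x - 2 * ν) := ⟨_, rfl⟩
  have hFx : ∀ x, F x = smax2 ν (C x) (G x - 2 * ν) := fun x => by rw [hF]
  have hFs : ContDiff ℝ ∞ F := by
    have e1 : F = fun x => (fun p : ℝ × V => smax2 ν (C p.2) (G p.2 - (2 * ν + p.1))) (0, x) := by
      funext x
      show F x = smax2 ν (C x) (G x - (2 * ν + 0))
      rw [hFx, add_zero]
    rw [e1]
    exact (Push_joint hC hG ν).comp (contDiff_const.prodMk contDiff_id)
  have hgood : Good C := good_of_regular hC hb hreg'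
  refine ⟨F, hFs, ?_, fun x => ?_, fun x hx => ?_, fun x hx hz => ?_, fun x hx hx2 => ?_⟩
  · -- the homotopy
    obtain ⟨T, hT0, hT⟩ : ∃ T : ℝ, 0 ≤ T ∧ ∀ x, C x ≤ 0 → G x ≤ T := by
      obtain ⟨M, hM⟩ := hK.exists_bound_of_continuousOn hGc.continuousOn
      refine ⟨max M 0, le_max_right _ _, fun x hx => ?_⟩
      rcases le_total 0 (G x) with h5 | h5
      · exact ((le_abs_self _).trans (hM x ⟨hx, h5⟩)).trans (le_max_left _ _)
      · exact h5.trans (le_max_right _ _)
    have hfam : Hom ((fun t x => smax2 ν (C x) (G x - (2 * ν + t))) 0)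
        ((fun t x => smax2 ν (C x) (G x - (2 * ν + t))) T) := by
      refine Hom.of_family hT0 (fun t x => smax2 ν (C x) (G x - (2 * ν + t)))
        (Push_joint hC hG ν).continuous.continuousOn ?_ ?_
      · obtain ⟨R₁, hR₁⟩ := hcomp.exists_norm_le
        obtain ⟨R₂, hR₂⟩ := hb.exists_norm_le
        refine ⟨max R₁ R₂, fun t ht x hx => ?_⟩
        have e1 : C x ≤ 0 := by
          have e2 : C x ≤ smax2 ν (C x) (G x - (2 * ν + t)) := le_smax2_left hν
          rwa [hx] at e2
        rcases le_or_gt 0 (G x) with h5 | h5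
        · exact (hR₁ x ⟨e1, h5⟩).trans (le_max_left _ _)
        · have e2 := (Push_low (C := C) hν (x := x) (G := G) (t := 2 * ν + t)
            (by linarith [ht.1])).2.1 hx
          exact (hR₂ x e2).trans (le_max_right _ _)
      · intro t ht x hx
        obtain ⟨θ, hθ⟩ : ∃ θ, θ = deriv smx ((G x - (2 * ν + t) - C x) / ν) := ⟨_, rfl⟩
        have hfd := Push_fd hC hG ν (2 * ν + t) hν x
        rw [← hθ] at hfd
        have hθm := smx_deriv_mem ((G x - (2 * ν + t) - C x) / ν)
        rw [← hθ] at hθm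
        have e1 : C x ≤ 0 := by
          have e2 : C x ≤ smax2 ν (C x) (G x - (2 * ν + t)) := le_smax2_left hν
          rwa [hx] at e2
        have hne : (1 - θ) • fderiv ℝ C x + θ • fderiv ℝ G x ≠ 0 := by
          rcases le_or_gt 0 (G x) with h5 | h5
          · intro h0
            have e2 : (1 - θ) • gradient C x + θ • gradient G x = 0 := by
              unfold gradient
              rw [← map_smul, ← map_smul, ← map_add, h0, map_zero]
            have e3 := hB₃ (x, θ) ⟨⟨⟨e1, h5⟩, hθm⟩, e2⟩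
            have e4 : γ₃ ≤ -C x := e3
            have e5 : smax2 ν (C x) (G x - (2 * ν + t)) ≤ max (C x) (G x - (2 * ν + t) + ν) :=
              smax2_le hν
            have e6 : (0 : ℝ) ≤ max (C x) (G x - (2 * ν + t) + ν) := by
              have e7 : smax2 ν (C x) (G x - (2 * ν + t)) = 0 := hx
              rwa [e7] at e5
            have e8 : 0 ≤ G x - (2 * ν + t) + ν := by
              rcases le_max_iff.1 e6 with h6 | h6
              · linarith
              · exact h6
            have e9 : θ = 1 := by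
              rw [hθ]
              apply smx_deriv_hi
              rw [le_div_iff₀ hν]
              linarith
            rw [e9, sub_self, zero_smul, one_smul, zero_add] at h0
            have e10 := h2 x e1 h5
            rw [h0] at e10
            simp at e10
          · have e2 : C x = 0 := (Push_low (C := C) hν (x := x) (G := G) (t := 2 * ν + t)
              (by linarith [ht.1])).2.1 hx
            have e3 : θ = 0 := by
              rw [hθ]
              apply smx_deriv_lo
              rw [div_le_iff₀ hν]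
              linarith [ht.1]
            rw [e3, sub_zero, one_smul, zero_smul, add_zero]
            exact hreg' x e2
        obtain ⟨w, hw⟩ : ∃ w, ((1 - θ) • fderiv ℝ C x + θ • fderiv ℝ G x) w < 0 := by
          have e2 : ∃ w, ((1 - θ) • fderiv ℝ C x + θ • fderiv ℝ G x) w ≠ 0 := by
            by_contra h5
            push Not at h5
            exact hne (ContinuousLinearMap.ext h5)
          obtain ⟨w, hw⟩ := e2
          rcases lt_or_gt_of_ne hw with h5 | h5
          · exact ⟨w, h5⟩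
          · exact ⟨-w, by rw [map_neg]; linarith⟩
        refine ⟨w, Desc.mono ?_ nhdsWithin_le_nhds⟩
        have e2 : ContDiffAt ℝ 1
            (fun p : ℝ × V => smax2 ν (C p.2) (G p.2 - (2 * ν + p.1))) (t, x) :=
          ((Push_joint hC hG ν).of_le (by exact_mod_cast le_top)).contDiffAt
        refine desc_smooth (G := fun p : ℝ × V => smax2 ν (C p.2) (G p.2 - (2 * ν + p.1))) e2 ?_
        have e3 := (e2.differentiableAt (by simp)).hasFDerivAt
        have e4 : HasFDerivAt (fun y : V => (t, y)) (ContinuousLinearMap.inr ℝ ℝ V) x :=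
          hasFDerivAt_prodMk_right t x
        have e5 := e3.comp x e4
        have e6 : ((fun p : ℝ × V => smax2 ν (C p.2) (G p.2 - (2 * ν + p.1))) ∘
            fun y : V => (t, y)) = fun y => smax2 ν (C y) (G y - (2 * ν + t)) := rfl
        rw [e6] at e5
        have e7 := e5.unique hfd
        have e8 : (fderiv ℝ (fun p : ℝ × V => smax2 ν (C p.2) (G p.2 - (2 * ν + p.1))) (t, x))
            (0, w) = ((1 - θ) • fderiv ℝ C x + θ • fderiv ℝ G x) w := by
          rw [← e7]
          rfl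
        rw [e8]
        exact hw
    have hend : Hom C ((fun t x => smax2 ν (C x) (G x - (2 * ν + t))) T) := by
      have hcT : Continuous fun x => smax2 ν (C x) (G x - (2 * ν + T)) :=
        (Push_joint hC hG ν).continuous.comp (continuous_const.prodMk continuous_id)
      refine Hom.of_eq_near' hgood hcT (fun x hx => ?_) fun x hx1 hx2 => ?_
      · have e0 : C x ≤ 0 := by
          rcases hx with h5 | h5
          · exact h5.le
          · have e2 : C x ≤ smax2 ν (C x) (G x - (2 * ν + T)) := le_smax2_left hν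
            have h5' : smax2 ν (C x) (G x - (2 * ν + T)) = 0 := h5
            rwa [h5'] at e2
        have e1 := hT x e0
        have e2 : C x = 0 := by
          rcases hx with h5 | h5
          · exact h5
          · exact (Push_low (C := C) hν (x := x) (G := G) (t := 2 * ν + T) (by linarith)).2.1 h5
        have e3 : G x - (2 * ν + T) < C x - ν := by linarith
        have e4 : ∀ᶠ y in 𝓝 x, G y - (2 * ν + T) < C y - ν :=
          (hGc.sub continuous_const).continuousAt.eventually_lt
            (hCc.sub continuous_const).continuousAt e3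
        filter_upwards [e4] with y hy
        exact (smax2_left hν hy.le).symm
      · rcases lt_or_gt_of_ne hx1 with h5 | h5
        · have e1 := hT x h5.le
          have e2 := (Push_low (C := C) hν (x := x) (G := G) (t := 2 * ν + T)
            (by linarith)).1.2 h5.le
          exact mul_pos_of_neg_of_neg h5 (lt_of_le_of_ne e2 hx2)
        · have e2 : C x ≤ smax2 ν (C x) (G x - (2 * ν + T)) := le_smax2_left hν
          exact mul_pos h5 (lt_of_lt_of_le h5 e2)
    have e0 : F = (fun t x => smax2 ν (C x) (G x - (2 * ν + t))) 0 := by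
      funext x
      show F x = smax2 ν (C x) (G x - (2 * ν + 0))
      rw [hFx, add_zero]
    rw [e0]
    exact hend.trans hfam.symm
  · rw [hFx]
    exact le_smax2_left hν
  · rw [hFx]
    exact (Push_low hν (by linarith)).1
  · have e2 : C x = 0 := by
      rcases hz with h5 | h5
      · exact h5
      · rw [hFx] at h5
        exact (Push_low hν (by linarith)).2.1 h5
    have e3 : G x - 2 * ν < C x - ν := by linarith
    have e4 : ∀ᶠ y in 𝓝 x, G y - 2 * ν < C y - ν :=
      (hGc.sub continuous_const).continuousAt.eventually_lt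
        (hCc.sub continuous_const).continuousAt e3
    filter_upwards [e4] with y hy
    rw [hFx]
    exact smax2_left hν hy.le
  · have e1 : C x ≤ 0 := by
      have e2 : C x ≤ smax2 ν (C x) (G x - 2 * ν) := le_smax2_left hν
      rwa [← hFx, hx] at e2
    have e2 : G x ≤ 2 * ν := by
      have e2 : G x - 2 * ν ≤ smax2 ν (C x) (G x - 2 * ν) := le_smax2_right hν
      rw [← hFx, hx] at e2
      linarith
    refine ⟨by linarith, fun l hl => ?_⟩
    obtain ⟨θ, hθ⟩ : ∃ θ, θ = deriv smx ((G x - 2 * ν - C x) / ν) := ⟨_, rfl⟩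
    have hθm := smx_deriv_mem ((G x - 2 * ν - C x) / ν)
    rw [← hθ] at hθm
    have hfd := Push_fd hC hG ν (2 * ν) hν x
    rw [← hθ] at hfd
    have e3 : gradient F x = (1 - θ) • gradient C x + θ • gradient G x := by
      unfold gradient
      rw [hF, hfd.fderiv, map_add, map_smul, map_smul]
    rw [e3] at hl
    have e4 : ((1 - θ) • gradient C x + θ • gradient G x) -
        ⟪e, (1 - θ) • gradient C x + θ • gradient G x⟫ • e = 0 := by
      rw [hl, real_inner_smul_right, hee, mul_one, sub_self]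
    have e5 : γ₂ ≤ G x - C x := hB₂ (x, θ) ⟨⟨⟨e1, hx2⟩, hθm⟩, e4⟩
    have e6 : θ = 1 := by
      rw [hθ]
      apply smx_deriv_hi
      rw [le_div_iff₀ hν]
      linarith
    rw [e6, sub_self, zero_smul, one_smul, zero_add] at hl
    have e7 : γ₁ ≤ G x := by
      refine hB₁ x ⟨⟨e1, hx2⟩, ?_⟩
      show gradient G x - ⟪e, gradient G x⟫ • e = 0
      rw [hl, real_inner_smul_right, hee, mul_one, sub_self]
    linarith

end Pool.Schoen
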