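import Mathlib

/-! Cancellation: a smooth maximum. -/

set_option autoImplicit false

namespace Pool.Schoen

open Filter Set
open scoped Topology ContDiff

private noncomputable def SMax_m (x : ℝ) : ℝ := Real.smoothTransition ((x + 1) / 2)

private theorem SMax_symm (x : ℝ) : SMax_m (-x) = 1 - SMax_m x := by
  have h1 : ∀ y : ℝ, Real.smoothTransition (1 - y) = 1 - Real.smoothTransition y := by
    intro y
    have h2 := Real.smoothTransition.pos_denom y
    unfold Real.smoothTransition
    rw [sub_sub_cancel, add_comm (expNegInvGlue (1 - y)) (expNegInvGlue y), eq_sub_iff_add_eq,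
      ← add_div, add_comm (expNegInvGlue (1 - y)) (expNegInvGlue y)]
    exact div_self h2.ne'
  unfold SMax_m
  rw [← h1]
  congr 1
  ring

private theorem SMax_smooth : ContDiff ℝ ∞ SMax_m := by
  unfold SMax_m
  exact Real.smoothTransition.contDiff.comp (by fun_prop)

private theorem SMax_nonneg (x : ℝ) : 0 ≤ SMax_m x := Real.smoothTransition.nonneg _

private theorem SMax_le_one (x : ℝ) : SMax_m x ≤ 1 := Real.smoothTransition.le_one _

private theorem SMax_lo {x : ℝ} (hx : x ≤ -1) : SMax_m x = 0 :=
  Real.smoothTransition.zero_of_nonpos (by linarith)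

private theorem SMax_hi {x : ℝ} (hx : 1 ≤ x) : SMax_m x = 1 :=
  Real.smoothTransition.one_of_one_le (by linarith)

/-- A smooth replacement of `max v 0`. -/
noncomputable def smx (v : ℝ) : ℝ := ∫ x in (-1 : ℝ)..v, SMax_m x

private theorem SMax_int (a b : ℝ) :
    IntervalIntegrable SMax_m MeasureTheory.volume a b :=
  SMax_smooth.continuous.intervalIntegrable a b

theorem smx_hasDerivAt (v : ℝ) : HasDerivAt smx (SMax_m v) v :=
  intervalIntegral.integral_hasDerivAt_right (SMax_int _ _)
    (SMax_smooth.continuous.stronglyMeasurableAtFilter _ _) SMax_smooth.continuous.continuousAt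

theorem smx_contDiff : ContDiff ℝ ∞ smx := by
  rw [contDiff_infty_iff_deriv]
  refine ⟨fun v => (smx_hasDerivAt v).differentiableAt, ?_⟩
  have h1 : deriv smx = SMax_m := by
    funext v
    exact (smx_hasDerivAt v).deriv
  rw [h1]
  exact SMax_smooth

theorem smx_deriv_mem (v : ℝ) : 0 ≤ deriv smx v ∧ deriv smx v ≤ 1 := by
  rw [(smx_hasDerivAt v).deriv]
  exact ⟨SMax_nonneg v, SMax_le_one v⟩

theorem smx_deriv_hi {v : ℝ} (hv : 1 ≤ v) : deriv smx v = 1 := by
  rw [(smx_hasDerivAt v).deriv, SMax_hi hv]

theorem smx_deriv_lo {v : ℝ} (hv : v ≤ -1) : deriv smx v = 0 := by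
  rw [(smx_hasDerivAt v).deriv, SMax_lo hv]

theorem smx_mono : Monotone smx :=
  monotone_of_deriv_nonneg (smx_contDiff.differentiable (by simp)) fun v => (smx_deriv_mem v).1

theorem smx_lo {v : ℝ} (hv : v ≤ -1) : smx v = 0 := by
  unfold smx
  rw [intervalIntegral.integral_symm, neg_eq_zero]
  have h1 : ∫ x in v..(-1 : ℝ), SMax_m x = ∫ x in v..(-1 : ℝ), (0 : ℝ) := by
    refine intervalIntegral.integral_congr fun x hx => ?_
    rw [uIcc_of_le hv] at hx
    exact SMax_lo hx.2
  rw [h1, intervalIntegral.integral_zero]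

theorem smx_nonneg (v : ℝ) : 0 ≤ smx v := by
  rcases le_total v (-1) with h | h
  · rw [smx_lo h]
  · have h1 := smx_mono h
    rwa [smx_lo le_rfl] at h1

private theorem SMax_one : smx 1 = 1 := by
  have h1 : ∫ x in (-1 : ℝ)..1, SMax_m (-x) = ∫ x in (-1 : ℝ)..1, SMax_m x := by
    rw [intervalIntegral.integral_comp_neg, neg_neg]
  have h2 : ∫ x in (-1 : ℝ)..1, SMax_m (-x) = ∫ x in (-1 : ℝ)..1, (1 - SMax_m x) :=
    intervalIntegral.integral_congr fun x _ => SMax_symm x
  rw [intervalIntegral.integral_sub (by simp) (SMax_int _ _)] at h2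
  simp only [intervalIntegral.integral_const, smul_eq_mul] at h2
  unfold smx
  linarith

theorem smx_hi {v : ℝ} (hv : 1 ≤ v) : smx v = v := by
  have h1 : smx v = smx 1 + ∫ x in (1 : ℝ)..v, SMax_m x := by
    unfold smx
    exact (intervalIntegral.integral_add_adjacent_intervals (SMax_int _ _) (SMax_int _ _)).symm
  have h2 : ∫ x in (1 : ℝ)..v, SMax_m x = ∫ x in (1 : ℝ)..v, (1 : ℝ) := by
    refine intervalIntegral.integral_congr fun x hx => ?_
    rw [uIcc_of_le hv] at hx
    exact SMax_hi hx.1
  rw [h1, h2, SMax_one]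
  simp

theorem smx_ge (v : ℝ) : v ≤ smx v := by
  rcases le_total 1 v with h | h
  · rw [smx_hi h]
  · have h1 : Antitone fun x => smx x - x := by
      refine antitone_of_deriv_nonpos ?_ fun x => ?_
      · exact (smx_contDiff.differentiable (by simp)).sub differentiable_id
      · have h2 : HasDerivAt (fun x => smx x - x) (SMax_m x - 1) x :=
          (smx_hasDerivAt x).sub (hasDerivAt_id x)
        rw [h2.deriv]
        linarith [SMax_le_one x]
    have h3 := h1 h
    simp only at h3
    rw [smx_hi le_rfl] at h3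
    linarith

theorem smx_le (v : ℝ) : smx v ≤ max (v + 1) 0 := by
  rcases le_total v (-1) with h | h
  · rw [smx_lo h]
    exact le_max_right _ _
  · refine le_max_of_le_left ?_
    have h1 : Antitone fun x => smx x - x := by
      refine antitone_of_deriv_nonpos ?_ fun x => ?_
      · exact (smx_contDiff.differentiable (by simp)).sub differentiable_id
      · have h2 : HasDerivAt (fun x => smx x - x) (SMax_m x - 1) x :=
          (smx_hasDerivAt x).sub (hasDerivAt_id x)
        rw [h2.deriv]
        linarith [SMax_le_one x]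
    have h3 := h1 h
    simp only at h3
    rw [smx_lo le_rfl] at h3
    linarith

/-- The smooth maximum of width `ν`. -/
noncomputable def smax2 (ν a b : ℝ) : ℝ := a + ν * smx ((b - a) / ν)

variable {ν a b : ℝ}

theorem smax2_left (hν : 0 < ν) (h : b ≤ a - ν) : smax2 ν a b = a := by
  unfold smax2
  rw [smx_lo, mul_zero, add_zero]
  rw [div_le_iff₀ hν]
  linarith

theorem smax2_right (hν : 0 < ν) (h : a + ν ≤ b) : smax2 ν a b = b := by
  unfold smax2
  rw [smx_hi]
  · field_simp
    ring
  · rw [le_div_iff₀ hν]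
    linarith

theorem le_smax2_left (hν : 0 < ν) : a ≤ smax2 ν a b := by
  unfold smax2
  have := mul_nonneg hν.le (smx_nonneg ((b - a) / ν))
  linarith

theorem le_smax2_right (hν : 0 < ν) : b ≤ smax2 ν a b := by
  unfold smax2
  have h1 := mul_le_mul_of_nonneg_left (smx_ge ((b - a) / ν)) hν.le
  have h2 : ν * ((b - a) / ν) = b - a := by field_simp
  linarith

theorem smax2_le (hν : 0 < ν) : smax2 ν a b ≤ max a (b + ν) := by
  unfold smax2
  have h1 := smx_le ((b - a) / ν)
  rcases le_total ((b - a) / ν + 1) 0 with h | h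
  · rw [max_eq_right h] at h1
    have h2 := smx_nonneg ((b - a) / ν)
    have h3 : smx ((b - a) / ν) = 0 := le_antisymm h1 h2
    rw [h3, mul_zero, add_zero]
    exact le_max_left _ _
  · rw [max_eq_left h] at h1
    have h2 := mul_le_mul_of_nonneg_left h1 hν.le
    have h3 : ν * ((b - a) / ν + 1) = b - a + ν := by field_simp
    exact le_max_of_le_right (by linarith)

end Pool.Schoen
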