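import Pool.Agent.H.MP_6c077c_gt.F2.StepM

/-! Cancellation: the conormal of a ball and a cut off function. -/

set_option autoImplicit false

namespace Pool.Schoen

open Filter Set
open scoped Topology RealInnerProductSpace ContDiff

variable {E : Type*} [NormedAddCommGroup E] [InnerProductSpace ℝ E]

/-- A linear function which is not positive on an open half space. -/
theorem half_form {F : E →L[ℝ] ℝ} {q : E} (hq : ‖q‖ = 1) (h : ∀ w, ⟪q, w⟫ < 0 → F w ≤ 0) :
    0 ≤ F q ∧ ∀ w, F w = F q * ⟪q, w⟫ := by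
  have hqq : ⟪q, q⟫ = 1 := by rw [real_inner_self_eq_norm_sq, hq]; norm_num
  have h0 : 0 ≤ F q := by
    have h1 := h (-q) (by rw [inner_neg_right, hqq]; norm_num)
    rw [map_neg] at h1
    linarith
  have key : ∀ z, ⟪q, z⟫ = 0 → F z ≤ 0 := by
    intro z hz
    by_contra hc
    push Not at hc
    have hpos : 0 < 2 * (F q + 1) := by linarith
    have hε : 0 < F z / (2 * (F q + 1)) := div_pos hc hpos
    have h1 := h (z - (F z / (2 * (F q + 1))) • q) (by
      rw [inner_sub_right, real_inner_smul_right, hz, hqq]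
      linarith)
    rw [map_sub, map_smul, smul_eq_mul] at h1
    have h2 : F z / (2 * (F q + 1)) * F q ≤ F z / 2 := by
      rw [div_mul_eq_mul_div, div_le_div_iff₀ hpos (by norm_num)]
      nlinarith
    linarith
  refine ⟨h0, fun w => ?_⟩
  have hz : ⟪q, w - ⟪q, w⟫ • q⟫ = 0 := by
    rw [inner_sub_right, real_inner_smul_right, hqq]
    ring
  have h1 := key _ hz
  have h2 := key (-(w - ⟪q, w⟫ • q)) (by rw [inner_neg_right, hz, neg_zero])
  rw [map_neg] at h2
  rw [map_sub, map_smul, smul_eq_mul] at h1 h2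
  linarith



/-- The conormal of a body which is the image of the unit ball. -/
theorem ball_conormal {k : E → ℝ} (hk : ContDiff ℝ ∞ k) {φ ψ : E → E} (hφ : Dif φ ψ)
    (hle : ∀ w, k (φ w) ≤ 0 ↔ ‖w‖ ≤ 1) (heq : ∀ w, k (φ w) = 0 ↔ ‖w‖ = 1) {x : E}
    (hx : k x = 0) (hg : fderiv ℝ k x ≠ 0) :
    ∃ ν : ℝ, 0 < ν ∧ ∀ z, fderiv ℝ k x z = ν * ⟪ψ x, fderiv ℝ ψ x z⟫ := by
  obtain ⟨q, hq⟩ : ∃ q, q = ψ x := ⟨_, rfl⟩
  have hφq : φ q = x := by rw [hq, hφ.right]
  have hq1 : ‖q‖ = 1 := by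
    rw [← heq, hφq, hx]
  have hkd : Differentiable ℝ k := hk.differentiable (by simp)
  have hφd : Differentiable ℝ φ := hφ.smooth.differentiable (by simp)
  have hψd : Differentiable ℝ ψ := hφ.smooth'.differentiable (by simp)
  obtain ⟨G, hG⟩ : ∃ G : E → ℝ, G = fun w => k (φ w) := ⟨_, rfl⟩
  have hGv : ∀ w, G w = k (φ w) := fun w => by rw [hG]
  have hc : Differentiable ℝ G := by
    rw [hG]
    exact hkd.comp hφd
  obtain ⟨F, hF⟩ : ∃ F, F = fderiv ℝ G q := ⟨_, rfl⟩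
  have hhalf : ∀ w, ⟪q, w⟫ < 0 → F w ≤ 0 := by
    intro w hw
    have h1 : HasDerivAt (fun t : ℝ => G (q + t • w)) (F w) 0 := by
      have h2 : HasFDerivAt G F (q + (0 : ℝ) • w) := by
        rw [zero_smul, add_zero, hF]
        exact (hc q).hasFDerivAt
      have h3 : HasDerivAt (fun t : ℝ => q + t • w) w 0 := by
        have h4 := ((hasDerivAt_id (0 : ℝ)).smul_const w).const_add q
        simpa using h4
      exact h2.comp_hasDerivAt (0 : ℝ) h3
    have h5 : HasDerivWithinAt (fun t : ℝ => G (q + t • w)) (F w) (Ioi 0) 0 :=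
      h1.hasDerivWithinAt
    rw [hasDerivWithinAt_iff_tendsto_slope' (by simp)] at h5
    refine le_of_tendsto h5 ?_
    have h6 : 0 < -2 * ⟪q, w⟫ / (‖w‖ ^ 2 + 1) := by
      apply div_pos
      · linarith
      · positivity
    filter_upwards [Ioo_mem_nhdsGT h6] with t ht
    have h7 : ‖q + t • w‖ ≤ 1 := by
      have h8 : ‖q + t • w‖ ^ 2 = 1 + 2 * t * ⟪q, w⟫ + t ^ 2 * ‖w‖ ^ 2 := by
        rw [norm_add_sq_real, hq1, real_inner_smul_right, norm_smul, mul_pow, Real.norm_eq_abs,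
          sq_abs]
        ring
      have h9 : t * (‖w‖ ^ 2 + 1) < -2 * ⟪q, w⟫ := (lt_div_iff₀ (by positivity)).1 ht.2
      have h10 : t * (t * (‖w‖ ^ 2 + 1)) < t * (-2 * ⟪q, w⟫) := mul_lt_mul_of_pos_left h9 ht.1
      have h11 : ‖q + t • w‖ ^ 2 ≤ 1 := by
        rw [h8]
        nlinarith [sq_nonneg t]
      nlinarith [norm_nonneg (q + t • w)]
    have h8 : G (q + t • w) ≤ 0 := by
      rw [hGv]
      exact (hle _).2 h7
    have h9 : G (q + (0 : ℝ) • w) = 0 := by rw [hGv, zero_smul, add_zero, hφq, hx]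
    rw [slope_def_field, h9, sub_zero, sub_zero]
    exact div_nonpos_of_nonpos_of_nonneg h8 ht.1.le
  obtain ⟨h0, h1⟩ := half_form hq1 hhalf
  have h2 : ∀ z, fderiv ℝ k x z = F (fderiv ℝ ψ x z) := by
    intro z
    have h3 : k = G ∘ ψ := by
      funext y
      show k y = G (ψ y)
      rw [hGv, hφ.right]
    have h4 : HasFDerivAt k (F.comp (fderiv ℝ ψ x)) x := by
      have h5 : HasFDerivAt G F (ψ x) := by
        rw [← hq, hF]
        exact (hc q).hasFDerivAt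
      have h6 := h5.comp x (hψd x).hasFDerivAt
      rw [h3]
      exact h6
    rw [h4.fderiv]
    rfl
  refine ⟨F q, lt_of_le_of_ne h0 fun h3 => hg ?_, fun z => ?_⟩
  · ext z
    rw [h2, h1, ← h3]
    simp
  · rw [h2, h1, hq]


/-- A cut off function: one near `p`, zero outside the ball, not increasing away from `p`. -/
theorem exists_cut (p : E) {R : ℝ} (hR : 0 < R) : ∃ ζ : E → ℝ, ContDiff ℝ ∞ ζ ∧
    (∀ x, 0 ≤ ζ x ∧ ζ x ≤ 1) ∧ (∀ᶠ x in 𝓝 p, ζ x = 1) ∧
    (∀ x, R ≤ ‖x - p‖ → ζ =ᶠ[𝓝 x] fun _ => 0) ∧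
    ∀ x z, 0 ≤ ⟪x - p, z⟫ → fderiv ℝ ζ x z ≤ 0 := by
  obtain ⟨Z, hZ⟩ : ∃ Z : ℝ → ℝ, Z = fun v => Real.smoothTransition (2 - 4 * v / R ^ 2) :=
    ⟨_, rfl⟩
  have hR2 : 0 < R ^ 2 := by positivity
  have hZs : ContDiff ℝ ∞ Z := by
    rw [hZ]
    exact Real.smoothTransition.contDiff.comp (by fun_prop)
  have hmono : Antitone Z := by
    intro a b hab
    rw [hZ]
    apply Real.smoothTransition.monotone
    have : 4 * a / R ^ 2 ≤ 4 * b / R ^ 2 := by gcongr
    linarith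
  have h1 : ContDiff ℝ ∞ fun x : E => ‖x - p‖ ^ 2 := (contDiff_id.sub contDiff_const).norm_sq ℝ
  have hone : ∀ v, v ≤ R ^ 2 / 4 → Z v = 1 := by
    intro v hv
    rw [hZ]
    apply Real.smoothTransition.one_of_one_le
    have : 4 * v / R ^ 2 ≤ 1 := by
      rw [div_le_one hR2]
      linarith
    linarith
  have hzero : ∀ v, R ^ 2 / 2 ≤ v → Z v = 0 := by
    intro v hv
    rw [hZ]
    apply Real.smoothTransition.zero_of_nonpos
    have : 2 ≤ 4 * v / R ^ 2 := by
      rw [le_div_iff₀ hR2]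
      linarith
    linarith
  refine ⟨fun x => Z (‖x - p‖ ^ 2), hZs.comp h1, fun x => ?_, ?_, fun x hx => ?_, fun x z hz => ?_⟩
  · rw [hZ]
    exact ⟨Real.smoothTransition.nonneg _, Real.smoothTransition.le_one _⟩
  · have h2 : ∀ᶠ x in 𝓝 p, ‖x - p‖ ^ 2 < R ^ 2 / 4 := by
      refine (h1.continuous.tendsto p).eventually (gt_mem_nhds ?_)
      show ‖p - p‖ ^ 2 < R ^ 2 / 4
      have h3 : 0 < R ^ 2 / 4 := by positivity
      rw [sub_self, norm_zero]
      linarith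
    filter_upwards [h2] with x hx
    exact hone _ hx.le
  · have h2 : ∀ᶠ y in 𝓝 x, R ^ 2 / 2 < ‖y - p‖ ^ 2 := by
      refine (h1.continuous.tendsto x).eventually (lt_mem_nhds ?_)
      show R ^ 2 / 2 < ‖x - p‖ ^ 2
      nlinarith
    filter_upwards [h2] with y hy
    exact hzero _ hy.le
  · have h3 : HasFDerivAt (fun x : E => ‖x - p‖ ^ 2) (2 • (innerSL ℝ (x - p))) x := by
      have h4 := ((hasFDerivAt_id x).sub_const p).norm_sq
      simpa using h4
    have h5 : HasDerivAt Z (deriv Z (‖x - p‖ ^ 2)) (‖x - p‖ ^ 2) :=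
      (hZs.differentiable (by simp) _).hasDerivAt
    have h6 := h5.comp_hasFDerivAt x h3
    have h7 : fderiv ℝ (fun x => Z (‖x - p‖ ^ 2)) x z =
        deriv Z (‖x - p‖ ^ 2) * (2 * ⟪x - p, z⟫) := by
      rw [show (fun x => Z (‖x - p‖ ^ 2)) = Z ∘ fun x : E => ‖x - p‖ ^ 2 from rfl, h6.fderiv,
        smul_apply, smul_apply, innerSL_apply_apply,
        smul_eq_mul, nsmul_eq_mul, Nat.cast_ofNat]
    rw [h7]
    exact mul_nonpos_of_nonpos_of_nonneg hmono.deriv_nonpos (by linarith)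

end Pool.Schoen
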