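import Pool.Agent.H.MP_6c077c_gt.Ca.TipA

/-! Cancellation: the body near the tip. -/

set_option autoImplicit false

namespace Pool.Schoen

open Filter Set
open scoped Topology RealInnerProductSpace ContDiff

variable {E : Type*} [NormedAddCommGroup E] [InnerProductSpace ℝ E]

/-- The body is given by a quadratic function near the boundary point `p`; it lies on the side
`⟪u, x - p⟫ ≤ 0`. -/
structure Tip (k : E → ℝ) (φ ψ : E → E) (p u : E) (s r : ℝ) : Prop where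
  hk : ContDiff ℝ ∞ k
  hφ : Dif φ ψ
  hle : ∀ w, k (φ w) ≤ 0 ↔ ‖w‖ ≤ 1
  heq : ∀ w, k (φ w) = 0 ↔ ‖w‖ = 1
  hu : ‖u‖ = 1
  hs : 0 < s
  hr : 0 < r
  loc : ∀ x, ‖x - p‖ < r → k x = ‖x - p‖ ^ 2 - 2 * ⟪u, x - p⟫ ^ 2 + 2 * s * ⟪u, x - p⟫

variable {k : E → ℝ} {φ ψ : E → E} {p u : E} {s r : ℝ}

theorem Tip.kp (h : Tip k φ ψ p u s r) : k p = 0 := by
  rw [h.loc p (by rw [sub_self, norm_zero]; exact h.hr)]
  simp

theorem Tip.fd (h : Tip k φ ψ p u s r) {x : E} (hx : ‖x - p‖ < r) (z : E) :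
    fderiv ℝ k x z = 2 * ⟪x - p, z⟫ - 4 * ⟪u, x - p⟫ * ⟪u, z⟫ + 2 * s * ⟪u, z⟫ := by
  have h1 : HasFDerivAt (fun x : E => ‖x - p‖ ^ 2) (2 • (innerSL ℝ (x - p))) x := by
    have h4 := ((hasFDerivAt_id x).sub_const p).norm_sq
    simpa using h4
  have h2 : HasFDerivAt (fun x : E => ⟪u, x - p⟫) (innerSL ℝ u) x := by
    have h4 : HasFDerivAt (fun x : E => innerSL ℝ u (x - p)) (innerSL ℝ u) x :=
      ((innerSL ℝ u).hasFDerivAt).comp x ((hasFDerivAt_id x).sub_const p)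
    simpa [innerSL_apply_apply] using h4
  have h3 := (h1.sub ((h2.pow 2).const_mul 2)).add (h2.const_mul (2 * s))
  have h5 : k =ᶠ[𝓝 x] fun x => ‖x - p‖ ^ 2 - 2 * ⟪u, x - p⟫ ^ 2 + 2 * s * ⟪u, x - p⟫ := by
    have h6 : ∀ᶠ y in 𝓝 x, ‖y - p‖ < r :=
      ((continuous_id.sub continuous_const).norm.tendsto x).eventually (gt_mem_nhds hx)
    filter_upwards [h6] with y hy
    exact h.loc y hy
  have h7 : HasFDerivAt k _ x := h3.congr_of_eventuallyEq h5
  rw [h7.fderiv]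
  simp [innerSL_apply_apply]
  rw [inner_sub_left]
  ring

/-- The differential at the tip. -/
theorem Tip.tip (h : Tip k φ ψ p u s r) :
    ‖ψ p‖ = 1 ∧ ∃ κ : ℝ, 0 < κ ∧ ∀ z, ⟪ψ p, fderiv ℝ ψ p z⟫ = κ * ⟪u, z⟫ := by
  have hp : ‖p - p‖ < r := by rw [sub_self, norm_zero]; exact h.hr
  have huu : ⟪u, u⟫ = 1 := by rw [real_inner_self_eq_norm_sq, h.hu]; norm_num
  have hfd : ∀ z, fderiv ℝ k p z = 2 * s * ⟪u, z⟫ := by
    intro z
    rw [h.fd hp z]
    simp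
  have hne : fderiv ℝ k p ≠ 0 := by
    intro h0
    have h1 := hfd u
    rw [h0, huu] at h1
    simp only [zero_apply] at h1
    have := h.hs
    linarith
  obtain ⟨ν, hν, h1⟩ := ball_conormal h.hk h.hφ h.hle h.heq h.kp hne
  refine ⟨?_, 2 * s / ν, div_pos (by have := h.hs; linarith) hν, fun z => ?_⟩
  · rw [← h.heq, h.hφ.right, h.kp]
  · have h2 := h1 z
    rw [hfd] at h2
    field_simp
    linarith

/-- A body point near the tip. -/
theorem Tip.side (h : Tip k φ ψ p u s r) {x : E} (hx : ‖x - p‖ < r) (hxs : ‖x - p‖ < s)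
    (hk : k x ≤ 0) : ⟪u, x - p⟫ ≤ 0 ∧ (x ≠ p → ⟪u, x - p⟫ < 0) := by
  have h1 := h.loc x hx
  have h2 := abs_real_inner_le_norm u (x - p)
  rw [h.hu, one_mul] at h2
  have h3 := abs_le.1 h2
  have h4 : ⟪u, x - p⟫ ^ 2 ≤ ‖x - p‖ ^ 2 := by
    rw [← sq_abs ⟪u, x - p⟫]
    exact pow_le_pow_left₀ (abs_nonneg _) h2 2
  have h5 : ⟪u, x - p⟫ ≤ 0 := by
    by_contra hc
    push Not at hc
    nlinarith
  refine ⟨h5, fun hne => lt_of_le_of_ne h5 fun h0 => hne ?_⟩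
  rw [h0] at h1
  have h6 : ‖x - p‖ ^ 2 ≤ 0 := by nlinarith
  have h7 : ‖x - p‖ = 0 := by
    have := sq_nonneg ‖x - p‖
    exact pow_eq_zero_iff (two_ne_zero) |>.1 (le_antisymm h6 this)
  exact sub_eq_zero.1 (norm_eq_zero.1 h7)

private theorem Tip_inner {a c₁ c₂ : E} (f0 : 0 < ‖a‖) (f4 : ‖c₁‖ ≤ ‖a‖ / 3)
    (f5 : ‖c₂‖ ≤ ‖a‖ / 3) : 0 < ⟪a + c₁, a + c₂⟫ := by
  rw [inner_add_left, inner_add_right, inner_add_right, real_inner_self_eq_norm_sq]
  have f1 := (abs_le.1 (abs_real_inner_le_norm a c₂)).1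
  have f2 := (abs_le.1 (abs_real_inner_le_norm c₁ a)).1
  have f3 := (abs_le.1 (abs_real_inner_le_norm c₁ c₂)).1
  have f6 : ‖a‖ * ‖c₂‖ ≤ ‖a‖ * (‖a‖ / 3) := mul_le_mul_of_nonneg_left f5 f0.le
  have f7 : ‖c₁‖ * ‖a‖ ≤ ‖a‖ / 3 * ‖a‖ := mul_le_mul_of_nonneg_right f4 f0.le
  have f8 : ‖c₁‖ * ‖c₂‖ ≤ ‖a‖ / 3 * (‖a‖ / 3) :=
    mul_le_mul f4 f5 (norm_nonneg _) (by positivity)
  have f9 : 0 < ‖a‖ ^ 2 := by positivity
  nlinarith

/-- The estimates near the tip. -/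
theorem Tip.near (h : Tip k φ ψ p u s r) {κ : ℝ} (hκ : 0 < κ)
    (hd : ∀ z, ⟪ψ p, fderiv ℝ ψ p z⟫ = κ * ⟪u, z⟫) :
    ∃ (m R : ℝ), 0 < m ∧ 0 < R ∧ R ≤ r ∧ R ≤ s ∧
      (∀ x, ‖x - p‖ < R → m * ‖x - p‖ ≤ ‖ψ x - ψ p‖) ∧
      (∀ x, ‖x - p‖ < R → κ / 2 ≤ ⟪ψ p, fderiv ℝ ψ x u⟫) ∧
      ∀ x, ‖x - p‖ < R → k x = 0 → x ≠ p → ∃ T, fderiv ℝ k x T = 0 ∧ ⟪u, T⟫ < 0 ∧
        0 ≤ ⟪x - p, T⟫ ∧ ⟪ψ p, fderiv ℝ ψ x T⟫ < 0 := by
  have hr := h.hr
  have hs := h.hs
  have hq1 : ‖ψ p‖ = 1 := h.tip.1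
  have huu : ⟪u, u⟫ = 1 := by rw [real_inner_self_eq_norm_sq, h.hu]; norm_num
  have hψd : Differentiable ℝ ψ := h.hφ.smooth'.differentiable (by simp)
  have hφd : Differentiable ℝ φ := h.hφ.smooth.differentiable (by simp)
  obtain ⟨A, hA⟩ : ∃ A, A = fderiv ℝ ψ p := ⟨_, rfl⟩
  obtain ⟨B, hB⟩ : ∃ B, B = fderiv ℝ φ (ψ p) := ⟨_, rfl⟩
  have hBA : ∀ z, B (A z) = z := by
    intro z
    have h1 : HasFDerivAt (φ ∘ ψ) (B.comp A) p := by
      rw [hA, hB]
      exact (hφd _).hasFDerivAt.comp p (hψd p).hasFDerivAt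
    have h2 : φ ∘ ψ = id := by
      funext x
      exact h.hφ.right x
    rw [h2] at h1
    have h3 := h1.unique (hasFDerivAt_id p)
    have h4 : (B.comp A) z = (ContinuousLinearMap.id ℝ E) z := by rw [h3]
    simpa using h4
  obtain ⟨m, hm⟩ : ∃ m, m = (‖B‖ + 1)⁻¹ := ⟨_, rfl⟩
  have hm0 : 0 < m := by rw [hm]; positivity
  have hmA : ∀ z, m * ‖z‖ ≤ ‖A z‖ := by
    intro z
    have h1 : ‖z‖ ≤ ‖B‖ * ‖A z‖ := by
      have := B.le_opNorm (A z)
      rwa [hBA] at this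
    have h2 : ‖z‖ ≤ (‖B‖ + 1) * ‖A z‖ := by
      have := norm_nonneg (A z)
      linarith
    rw [hm, inv_mul_le_iff₀ (by positivity)]
    exact h2
  obtain ⟨ε, hε⟩ : ∃ ε, ε = min 1 (min (κ / 2) (m / (3 * (2 + ‖A‖)))) := ⟨_, rfl⟩
  have hA0 : 0 ≤ ‖A‖ := norm_nonneg A
  have hε0 : 0 < ε := by
    rw [hε]
    exact lt_min one_pos (lt_min (by linarith) (by positivity))
  have hε1 : ε ≤ 1 := by rw [hε]; exact min_le_left _ _
  have hε2 : ε ≤ κ / 2 := by rw [hε]; exact (min_le_right _ _).trans (min_le_left _ _)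
  have hε3 : ε ≤ m / (3 * (2 + ‖A‖)) := by
    rw [hε]; exact (min_le_right _ _).trans (min_le_right _ _)
  have hε4 : ε * (3 * (2 + ‖A‖)) ≤ m := by
    rwa [le_div_iff₀ (by positivity)] at hε3
  have hε5 : 3 * ε ≤ m := by nlinarith
  -- (a)
  have ha : ∀ᶠ x in 𝓝 p, ‖ψ x - ψ p - A (x - p)‖ ≤ ε * ‖x - p‖ := by
    have h1 := (hψd p).hasFDerivAt
    rw [← hA, hasFDerivAt_iff_isLittleO_nhds_zero] at h1
    have h2 : ∀ᶠ z in 𝓝 (0 : E), ‖ψ (p + z) - ψ p - A z‖ ≤ ε * ‖z‖ := h1.def hε0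
    have h3 : Tendsto (fun x => x - p) (𝓝 p) (𝓝 (0 : E)) := by
      have : Continuous fun x : E => x - p := by fun_prop
      simpa using this.tendsto p
    filter_upwards [h3.eventually h2] with x hx
    simpa using hx
  -- (b)
  have hb : ∀ᶠ x in 𝓝 p, ‖fderiv ℝ ψ x - A‖ ≤ ε := by
    have h1 : Continuous (fderiv ℝ ψ) := h.hφ.smooth'.continuous_fderiv (by simp)
    have h2 : Continuous fun x => ‖fderiv ℝ ψ x - A‖ := (h1.sub continuous_const).norm
    have h3 : ‖fderiv ℝ ψ p - A‖ < ε := by rw [← hA, sub_self, norm_zero]; exact hε0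
    filter_upwards [(h2.tendsto p).eventually (gt_mem_nhds h3)] with x hx
    exact hx.le
  obtain ⟨R₀, hR₀, hR₀b⟩ := Metric.eventually_nhds_iff.1 (ha.and hb)
  obtain ⟨R, hR⟩ : ∃ R, R = min R₀ (min r (min s (2 * s * ε))) := ⟨_, rfl⟩
  have hR0 : 0 < R := by
    rw [hR]
    exact lt_min hR₀ (lt_min hr (lt_min hs (by positivity)))
  have hRR : R ≤ R₀ := by rw [hR]; exact min_le_left _ _
  have hRr : R ≤ r := by rw [hR]; exact (min_le_right _ _).trans (min_le_left _ _)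
  have hRs : R ≤ s := by
    rw [hR]; exact (min_le_right _ _).trans ((min_le_right _ _).trans (min_le_left _ _))
  have hRε : R ≤ 2 * s * ε := by
    rw [hR]; exact (min_le_right _ _).trans ((min_le_right _ _).trans (min_le_right _ _))
  have hab : ∀ x, ‖x - p‖ < R → ‖ψ x - ψ p - A (x - p)‖ ≤ ε * ‖x - p‖ ∧
      ‖fderiv ℝ ψ x - A‖ ≤ ε := by
    intro x hx
    exact hR₀b (by rw [dist_eq_norm]; linarith)
  refine ⟨m / 2, R, by positivity, hR0, hRr, hRs, fun x hx => ?_, fun x hx => ?_,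
    fun x hx hkx hne => ?_⟩
  · obtain ⟨h1, -⟩ := hab x hx
    have h2 := hmA (x - p)
    have h3 : ‖A (x - p)‖ ≤ ‖ψ x - ψ p‖ + ‖ψ x - ψ p - A (x - p)‖ := by
      have h4 : A (x - p) = (ψ x - ψ p) - (ψ x - ψ p - A (x - p)) := by abel
      have h5 := norm_sub_le (ψ x - ψ p) (ψ x - ψ p - A (x - p))
      rwa [← h4] at h5
    have h4 := norm_nonneg (x - p)
    nlinarith
  · obtain ⟨-, h1⟩ := hab x hx
    have h2 : ⟪ψ p, fderiv ℝ ψ x u⟫ = κ + ⟪ψ p, (fderiv ℝ ψ x - A) u⟫ := by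
      have h3 := hd u
      rw [huu, mul_one] at h3
      rw [sub_apply, inner_sub_right, hA, h3]
      ring
    have h3 := abs_real_inner_le_norm (ψ p) ((fderiv ℝ ψ x - A) u)
    have h4 := (fderiv ℝ ψ x - A).le_opNorm u
    rw [h.hu, mul_one] at h4
    rw [hq1, one_mul] at h3
    have h5 := (abs_le.1 h3).1
    rw [h2]
    linarith
  · obtain ⟨h1, h2⟩ := hab x hx
    obtain ⟨s1, s2⟩ := h.side (by linarith) (by linarith) hkx.le
    have s3 := s2 hne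
    obtain ⟨α, hα⟩ : ∃ α, α = ⟪u, x - p⟫ := ⟨_, rfl⟩
    rw [← hα] at s1 s2 s3
    have hsα : 0 < s - α := by linarith
    have hloc := h.loc x (by linarith)
    rw [hkx, ← hα] at hloc
    obtain ⟨y, hy⟩ : ∃ y, y = x - p - α • u := ⟨_, rfl⟩
    have hxy : x - p = y + α • u := by rw [hy]; abel
    have huy : ⟪u, y⟫ = 0 := by
      rw [hy, inner_sub_right, real_inner_smul_right, huu, ← hα]
      ring
    have hyu : ⟪y, u⟫ = 0 := by rw [real_inner_comm, huy]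
    have hyy : ‖y‖ ^ 2 = ‖x - p‖ ^ 2 - α ^ 2 := by
      rw [hy, norm_sub_sq_real, real_inner_smul_right, real_inner_comm, ← hα, norm_smul, h.hu,
        mul_one, Real.norm_eq_abs, sq_abs]
      ring
    have hy2 : ‖y‖ ^ 2 = α ^ 2 - 2 * s * α := by rw [hyy]; linarith
    have hypos : 0 < ‖y‖ ^ 2 := by
      rw [hy2]
      nlinarith
    obtain ⟨b, hb⟩ : ∃ b, b = -(‖y‖ ^ 2 / (s - α)) := ⟨_, rfl⟩
    have hb1 : b * (s - α) = -‖y‖ ^ 2 := by
      rw [hb]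
      field_simp
    have hb0 : b < 0 := by
      rw [hb, neg_lt_zero]
      positivity
    have hyyi : ⟪y, y⟫ = ‖y‖ ^ 2 := real_inner_self_eq_norm_sq y
    have hxT : ⟪x - p, y + b • u⟫ = ‖y‖ ^ 2 + α * b := by
      rw [hxy, inner_add_left, inner_add_right, inner_add_right, real_inner_smul_left,
        real_inner_smul_left, real_inner_smul_right, real_inner_smul_right, huy, hyu, huu, hyyi]
      ring
    have huT : ⟪u, y + b • u⟫ = b := by
      rw [inner_add_right, real_inner_smul_right, huy, huu]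
      ring
    have hdk : fderiv ℝ k x (y + b • u) = 0 := by
      rw [h.fd (by linarith), hxT, huT, ← hα]
      linear_combination 2 * hb1
    refine ⟨y + b • u, hdk, by rw [huT]; exact hb0, ?_, ?_⟩
    · rw [hxT]
      nlinarith
    · -- the distance of `T` and `x - p`
      have hTd : y + b • u - (x - p) = (b - α) • u := by
        rw [hxy, sub_smul]
        abel
      have hba : (b - α) * (s - α) = s * α := by
        linear_combination hb1 - hy2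
      have hbα : ‖y + b • u - (x - p)‖ ≤ -α := by
        rw [hTd, norm_smul, h.hu, mul_one, Real.norm_eq_abs]
        have e1 : b - α ≤ 0 := by
          by_contra hc
          push Not at hc
          nlinarith
        rw [abs_of_nonpos e1]
        nlinarith
      have hρ : 0 < ‖x - p‖ := norm_pos_iff.2 (sub_ne_zero.2 hne)
      have hα2 : -α ≤ ε * ‖x - p‖ := by
        have e1 : 2 * s * (-α) ≤ ‖x - p‖ ^ 2 := by nlinarith
        have e2 : ‖x - p‖ ^ 2 ≤ 2 * s * (ε * ‖x - p‖) := by nlinarith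
        have e3 : 2 * s * (-α) ≤ 2 * s * (ε * ‖x - p‖) := e1.trans e2
        exact le_of_mul_le_mul_left e3 (by linarith)
      have hT1 : ‖y + b • u - (x - p)‖ ≤ ε * ‖x - p‖ := hbα.trans hα2
      have hT2 : ‖y + b • u‖ ≤ 2 * ‖x - p‖ := by
        have e1 : ‖y + b • u‖ ≤ ‖y + b • u - (x - p)‖ + ‖x - p‖ := by
          have := norm_add_le (y + b • u - (x - p)) (x - p)
          rwa [sub_add_cancel] at this
        nlinarith
      have he2 : ‖fderiv ℝ ψ x (y + b • u) - A (x - p)‖ ≤ m / 3 * ‖x - p‖ := by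
        have e1 : fderiv ℝ ψ x (y + b • u) - A (x - p) =
            (fderiv ℝ ψ x - A) (y + b • u) + A (y + b • u - (x - p)) := by
          rw [sub_apply, map_sub A (y + b • u) (x - p)]
          exact (sub_add_sub_cancel _ _ _).symm
        have e2 := (fderiv ℝ ψ x - A).le_opNorm (y + b • u)
        have e3 := A.le_opNorm (y + b • u - (x - p))
        have e4 := norm_add_le ((fderiv ℝ ψ x - A) (y + b • u)) (A (y + b • u - (x - p)))
        rw [← e1] at e4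
        have e5 : ‖fderiv ℝ ψ x - A‖ * ‖y + b • u‖ ≤ ε * (2 * ‖x - p‖) :=
          mul_le_mul h2 hT2 (norm_nonneg _) hε0.le
        have e6 : ‖A‖ * ‖y + b • u - (x - p)‖ ≤ ‖A‖ * (ε * ‖x - p‖) :=
          mul_le_mul_of_nonneg_left hT1 hA0
        have e7 : ε * (3 * (2 + ‖A‖)) * ‖x - p‖ ≤ m * ‖x - p‖ :=
          mul_le_mul_of_nonneg_right hε4 hρ.le
        nlinarith
      have he1 : ‖ψ x - ψ p - A (x - p)‖ ≤ m / 3 * ‖x - p‖ := by nlinarith
      have hAρ := hmA (x - p)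
      have hne0 : fderiv ℝ k x ≠ 0 := by
        intro h0
        have e1 : fderiv ℝ k x u = 2 * (s - α) := by
          rw [h.fd (by linarith), huu, ← hα, real_inner_comm, ← hα]
          ring
        rw [h0] at e1
        simp only [zero_apply] at e1
        linarith
      obtain ⟨ν, hν, hν1⟩ := ball_conormal h.hk h.hφ h.hle h.heq hkx hne0
      have e1 : ⟪ψ x, fderiv ℝ ψ x (y + b • u)⟫ = 0 := by
        have e2 := hν1 (y + b • u)
        rw [hdk] at e2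
        rcases mul_eq_zero.1 e2.symm with e3 | e3
        · exact absurd e3 hν.ne'
        · exact e3
      -- the main inequality
      obtain ⟨a, hAa⟩ : ∃ a, a = A (x - p) := ⟨_, rfl⟩
      obtain ⟨c₁, hc₁⟩ : ∃ c, c = ψ x - ψ p - A (x - p) := ⟨_, rfl⟩
      obtain ⟨c₂, hc₂⟩ : ∃ c, c = fderiv ℝ ψ x (y + b • u) - A (x - p) := ⟨_, rfl⟩
      rw [← hc₁] at he1
      rw [← hc₂] at he2
      rw [← hAa] at hAρ
      have g1 : ψ x - ψ p = a + c₁ := by
        rw [hc₁, ← hAa]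
        exact (add_sub_cancel _ _).symm
      have g2 : fderiv ℝ ψ x (y + b • u) = a + c₂ := by
        rw [hc₂, ← hAa]
        exact (add_sub_cancel _ _).symm
      have g3 : 0 < ⟪a + c₁, a + c₂⟫ := by
        have f0 : 0 < ‖a‖ := lt_of_lt_of_le (mul_pos hm0 hρ) hAρ
        exact Tip_inner f0 (by linarith) (by linarith)
      rw [← g1, ← g2, inner_sub_left, e1] at g3
      linarith

end Pool.Schoen
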