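import Pool.Agent.H.MP_6c077c_gt.Ca.TipB

/-! Cancellation: a function without critical points on a ball, linear near a boundary point. -/

set_option autoImplicit false

namespace Pool.Schoen

open Filter Set
open scoped Topology RealInnerProductSpace ContDiff

variable {E : Type*} [NormedAddCommGroup E] [InnerProductSpace ℝ E]
variable {k : E → ℝ} {φ ψ : E → E} {p u : E} {s r : ℝ}

/-- The comparison of the two functions on the body near the tip. -/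
theorem Tip.cmp (h : Tip k φ ψ p u s r) {κ m R : ℝ} (hκ : 0 < κ) (hm : 0 < m) (hRr : R ≤ r)
    (hRs : R ≤ s) (h1 : ∀ x, ‖x - p‖ < R → m * ‖x - p‖ ≤ ‖ψ x - ψ p‖)
    (h2 : ∀ x, ‖x - p‖ < R → κ / 2 ≤ ⟪ψ p, fderiv ℝ ψ x u⟫) :
    ∃ θ : ℝ, 0 < θ ∧ θ ≤ 1 / 2 ∧ ∀ x, ‖x - p‖ < R → k x ≤ 0 →
      θ * (-⟪u, x - p⟫) ≤ (1 - ⟪ψ p, ψ x⟫) / κ := by
  have hs := h.hs
  have hq1 : ‖ψ p‖ = 1 := h.tip.1
  have huu : ⟪u, u⟫ = 1 := by rw [real_inner_self_eq_norm_sq, h.hu]; norm_num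
  have hψd : Differentiable ℝ ψ := h.hφ.smooth'.differentiable (by simp)
  obtain ⟨θ, hθ⟩ : ∃ θ, θ = min (1 / 2) (m ^ 2 * s / κ) := ⟨_, rfl⟩
  have hθ0 : 0 < θ := by
    rw [hθ]
    exact lt_min (by norm_num) (by positivity)
  have hθ1 : θ ≤ 1 / 2 := by rw [hθ]; exact min_le_left _ _
  have hθ2 : θ ≤ m ^ 2 * s / κ := by rw [hθ]; exact min_le_right _ _
  refine ⟨θ, hθ0, hθ1, fun x hx hk => ?_⟩
  obtain ⟨s1, -⟩ := h.side (by linarith) (by linarith) hk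
  obtain ⟨α, hα⟩ : ∃ α, α = ⟪u, x - p⟫ := ⟨_, rfl⟩
  rw [← hα] at s1
  have hloc := h.loc x (by linarith)
  rw [← hα] at hloc
  obtain ⟨y, hy⟩ : ∃ y, y = x - p - α • u := ⟨_, rfl⟩
  have hxy : x - p = y + α • u := by rw [hy]; abel
  have huy : ⟪u, y⟫ = 0 := by
    rw [hy, inner_sub_right, real_inner_smul_right, huu, ← hα]
    ring
  have hnorm : ∀ t : ℝ, ‖y + t • u‖ ^ 2 = ‖y‖ ^ 2 + t ^ 2 := by
    intro t
    rw [norm_add_sq_real, real_inner_smul_right, real_inner_comm, huy, norm_smul, h.hu,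
      mul_one, Real.norm_eq_abs, sq_abs]
    ring
  have hyy : ‖x - p‖ ^ 2 = ‖y‖ ^ 2 + α ^ 2 := by rw [hxy, hnorm]
  obtain ⟨w, hw⟩ : ∃ w, w = √(s ^ 2 + ‖y‖ ^ 2) := ⟨_, rfl⟩
  have hw0 : 0 ≤ w := by rw [hw]; positivity
  have hw2 : w ^ 2 = s ^ 2 + ‖y‖ ^ 2 := by rw [hw, Real.sq_sqrt (by positivity)]
  have hws : s ≤ w := by nlinarith [sq_nonneg ‖y‖]
  have hkx : ‖y‖ ^ 2 - α ^ 2 + 2 * s * α ≤ 0 := by nlinarith
  have hαw : w ≤ s - α := by
    have e1 : w ^ 2 ≤ (s - α) ^ 2 := by nlinarith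
    exact (pow_le_pow_iff_left₀ hw0 (by linarith) two_ne_zero).1 e1
  -- the points between
  have hball : ∀ t, α ≤ t → t ≤ 0 → ‖p + y + t • u - p‖ < R := by
    intro t ht1 ht2
    have e0 : p + y + t • u - p = y + t • u := by abel
    rw [e0]
    have e1 : ‖y + t • u‖ ^ 2 ≤ ‖x - p‖ ^ 2 := by
      rw [hnorm, hyy]
      nlinarith
    have e2 : ‖y + t • u‖ ≤ ‖x - p‖ :=
      (pow_le_pow_iff_left₀ (norm_nonneg _) (norm_nonneg _) two_ne_zero).1 e1
    linarith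
  obtain ⟨z, hz⟩ : ∃ z, z = p + y + (s - w) • u := ⟨_, rfl⟩
  have hzp : z - p = y + (s - w) • u := by rw [hz]; abel
  have hzR : ‖z - p‖ < R := by
    rw [hz]
    exact hball _ (by linarith) (by linarith)
  have hzn : ‖z - p‖ ^ 2 = ‖y‖ ^ 2 + (s - w) ^ 2 := by rw [hzp, hnorm]
  have huz : ⟪u, z - p⟫ = s - w := by
    rw [hzp, inner_add_right, real_inner_smul_right, huy, huu]
    ring
  have hkz : k z = 0 := by
    rw [h.loc z (by linarith), hzn, huz]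
    linear_combination -hw2
  have hψz : ‖ψ z‖ = 1 := by rw [← h.heq, h.hφ.right, hkz]
  have hA : (1 - ⟪ψ p, ψ z⟫) = ‖ψ z - ψ p‖ ^ 2 / 2 := by
    rw [norm_sub_sq_real, hψz, hq1, real_inner_comm]
    ring
  have hB : θ * (w - s) ≤ (1 - ⟪ψ p, ψ z⟫) / κ := by
    have e1 := h1 z hzR
    have e2 : (m * ‖z - p‖) ^ 2 ≤ ‖ψ z - ψ p‖ ^ 2 :=
      pow_le_pow_left₀ (by positivity) e1 2
    have e3 : (w - s) * (w + s) = ‖y‖ ^ 2 := by linear_combination hw2
    have e4 : 2 * s * (w - s) ≤ ‖z - p‖ ^ 2 := by nlinarith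
    rw [hA]
    calc θ * (w - s) ≤ m ^ 2 * s / κ * (w - s) :=
          mul_le_mul_of_nonneg_right hθ2 (by linarith)
      _ = m ^ 2 * (2 * s * (w - s)) / (2 * κ) := by field_simp
      _ ≤ m ^ 2 * ‖z - p‖ ^ 2 / (2 * κ) := by gcongr
      _ = (m * ‖z - p‖) ^ 2 / (2 * κ) := by ring
      _ ≤ ‖ψ z - ψ p‖ ^ 2 / (2 * κ) := by gcongr
      _ = ‖ψ z - ψ p‖ ^ 2 / 2 / κ := by ring
  -- monotonicity along the axis
  obtain ⟨τ, hτ⟩ : ∃ τ, τ = s - w - α := ⟨_, rfl⟩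
  have hτ0 : 0 ≤ τ := by rw [hτ]; linarith
  obtain ⟨f, hf⟩ : ∃ f : ℝ → ℝ, f = fun t => -⟪ψ p, ψ (z - t • u)⟫ / κ := ⟨_, rfl⟩
  have hder : ∀ t, HasDerivAt f (⟪ψ p, fderiv ℝ ψ (z - t • u) u⟫ / κ) t := by
    intro t
    have e1 : HasDerivAt (fun t : ℝ => z - t • u) (-u) t := by
      have e2 := ((hasDerivAt_id t).smul_const u).const_sub z
      simpa using e2
    have e2 := (hψd (z - t • u)).hasFDerivAt.comp_hasDerivAt t e1
    have e3 := ((innerSL ℝ (ψ p)).hasFDerivAt.comp_hasDerivAt t e2).neg.div_const κ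
    rw [hf]
    refine e3.congr_deriv ?_
    rw [innerSL_apply_apply, map_neg, inner_neg_right, neg_neg]
  have hmv : 1 / 2 * (τ - 0) ≤ f τ - f 0 := by
    refine (convex_Icc (0 : ℝ) τ).mul_sub_le_image_sub_of_le_deriv
      (fun t _ => (hder t).continuousAt.continuousWithinAt)
      (fun t _ => (hder t).differentiableAt.differentiableWithinAt) ?_ 0 ⟨le_rfl, hτ0⟩ τ
      ⟨hτ0, le_rfl⟩ hτ0
    intro t ht
    rw [interior_Icc] at ht
    rw [(hder t).deriv, le_div_iff₀ hκ]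
    have e1 : z - t • u = p + y + (s - w - t) • u := by
      rw [hz, sub_smul (s - w) t]
      abel
    have e2 := h2 (z - t • u) (by
      rw [e1]
      exact hball _ (by rw [hτ] at ht; linarith [ht.2]) (by linarith [ht.1]))
    linarith
  have hfτ : f τ = -⟪ψ p, ψ x⟫ / κ := by
    rw [hf]
    show -⟪ψ p, ψ (z - τ • u)⟫ / κ = _
    have e1 : z - τ • u = x := by
      have e2 : x = p + (x - p) := by abel
      rw [e2, hxy, hz, hτ, sub_smul (s - w) α]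
      abel
    rw [e1]
  have hf0 : f 0 = -⟪ψ p, ψ z⟫ / κ := by
    rw [hf]
    show -⟪ψ p, ψ (z - (0 : ℝ) • u)⟫ / κ = _
    rw [zero_smul, sub_zero]
  rw [hfτ, hf0] at hmv
  rw [← hα]
  have e1 : (1 - ⟪ψ p, ψ x⟫) / κ = (1 - ⟪ψ p, ψ z⟫) / κ +
      (-⟪ψ p, ψ x⟫ / κ - -⟪ψ p, ψ z⟫ / κ) := by ring
  rw [e1]
  have e2 : θ * -α = θ * (w - s) + θ * τ := by rw [hτ]; ring
  rw [e2]
  nlinarith

private theorem Tip_gen (h : Tip k φ ψ p u s r) {R θ κ : ℝ} (hR : 0 < R) (hRr : R ≤ r) (hRs : R ≤ s)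
    (hκ : 0 < κ) (hθ0 : 0 < θ)
    (h2 : ∀ x, ‖x - p‖ < R → κ / 2 ≤ ⟪ψ p, fderiv ℝ ψ x u⟫)
    (h3 : ∀ x, ‖x - p‖ < R → k x = 0 → x ≠ p → ∃ T, fderiv ℝ k x T = 0 ∧ ⟪u, T⟫ < 0 ∧
        0 ≤ ⟪x - p, T⟫ ∧ ⟪ψ p, fderiv ℝ ψ x T⟫ < 0)
    (h4 : ∀ x, ‖x - p‖ < R → k x ≤ 0 → θ * (-⟪u, x - p⟫) ≤ (1 - ⟪ψ p, ψ x⟫) / κ)
    (hreg : ∀ x, k x = 0 → fderiv ℝ k x ≠ 0) :
    ∃ g : E → ℝ, ContDiff ℝ ∞ g ∧ (∀ᶠ x in 𝓝 p, g x = -⟪u, x - p⟫) ∧
      (∀ x, k x ≤ 0 → fderiv ℝ g x ≠ 0) ∧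
      (∀ x, k x = 0 → x ≠ p → ∀ μ : ℝ, 0 ≤ μ → fderiv ℝ g x ≠ -(μ • fderiv ℝ k x)) ∧
      ∀ x, k x ≤ 0 → x ≠ p → 0 < g x := by
  have hq1 : ‖ψ p‖ = 1 := h.tip.1
  have huu : ⟪u, u⟫ = 1 := by rw [real_inner_self_eq_norm_sq, h.hu]; norm_num
  have hψs : ContDiff ℝ ∞ ψ := h.hφ.smooth'
  have hψd : Differentiable ℝ ψ := hψs.differentiable (by simp)
  have hφd : Differentiable ℝ φ := h.hφ.smooth.differentiable (by simp)
  obtain ⟨ζ, hζ, hζ01, hζ1, hζ0, hζd⟩ := exists_cut p hR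
  obtain ⟨l, hl⟩ : ∃ l : E → ℝ, l = fun x => (1 - ⟪ψ p, ψ x⟫) / κ := ⟨_, rfl⟩
  obtain ⟨w, hw⟩ : ∃ w : E → ℝ, w = fun x => θ * (-⟪u, x - p⟫) := ⟨_, rfl⟩
  have hls : ContDiff ℝ ∞ l := by
    rw [hl]
    exact (contDiff_const.sub (contDiff_const.inner ℝ hψs)).div_const _
  have hws : ContDiff ℝ ∞ w := by
    rw [hw]
    exact contDiff_const.mul (contDiff_const.inner ℝ (contDiff_id.sub contDiff_const)).neg
  have hld : ∀ x z, fderiv ℝ l x z = -⟪ψ p, fderiv ℝ ψ x z⟫ / κ := by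
    intro x z
    have e1 := (((innerSL ℝ (ψ p)).hasFDerivAt.comp x (hψd x).hasFDerivAt).const_sub
      (1 : ℝ)).const_mul κ⁻¹
    have e0 : l = fun x => κ⁻¹ * (1 - ⟪ψ p, ψ x⟫) := by
      rw [hl]
      funext y
      rw [div_eq_inv_mul]
    have e2 : HasFDerivAt l (κ⁻¹ • -((innerSL ℝ (ψ p)).comp (fderiv ℝ ψ x))) x := by
      rw [e0]
      exact e1
    rw [e2.fderiv]
    simp [innerSL_apply_apply]
    ring
  have hwd : ∀ x z, fderiv ℝ w x z = -(θ * ⟪u, z⟫) := by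
    intro x z
    have e1 : HasFDerivAt (fun x : E => innerSL ℝ u (x - p)) (innerSL ℝ u) x :=
      ((innerSL ℝ u).hasFDerivAt).comp x ((hasFDerivAt_id x).sub_const p)
    have e2 := e1.neg.const_mul θ
    have e3 : HasFDerivAt w (θ • -(innerSL ℝ u)) x := by
      rw [hw]
      exact e2
    rw [e3.fderiv]
    simp [innerSL_apply_apply]
  obtain ⟨g, hg⟩ : ∃ g : E → ℝ, g = fun x => (l x + ζ x * (w x - l x)) / θ := ⟨_, rfl⟩
  have hgs : ContDiff ℝ ∞ g := by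
    rw [hg]
    exact (hls.add (hζ.mul (hws.sub hls))).div_const _
  have hgd : ∀ x z, fderiv ℝ g x z = ((1 - ζ x) * fderiv ℝ l x z + ζ x * fderiv ℝ w x z +
      (w x - l x) * fderiv ℝ ζ x z) / θ := by
    intro x z
    have e1 := (hls.differentiable (by simp) x).hasFDerivAt
    have e2 := (hws.differentiable (by simp) x).hasFDerivAt
    have e3 := (hζ.differentiable (by simp) x).hasFDerivAt
    have e4 := (e1.add (e3.mul (e2.sub e1))).const_mul θ⁻¹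
    have e0 : g = fun x => θ⁻¹ * (l x + ζ x * (w x - l x)) := by
      rw [hg]
      funext y
      rw [div_eq_inv_mul]
    have e5 : HasFDerivAt g (θ⁻¹ • (fderiv ℝ l x + (ζ x • (fderiv ℝ w x - fderiv ℝ l x) +
        (w x - l x) • fderiv ℝ ζ x))) x := by
      rw [e0]
      exact e4
    rw [e5.fderiv]
    simp
    ring
  -- outside the ball
  have hout : ∀ x z, R ≤ ‖x - p‖ → fderiv ℝ g x z = -⟪ψ p, fderiv ℝ ψ x z⟫ / κ / θ := by
    intro x z hx
    have e1 := hζ0 x hx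
    have e2 : ζ x = 0 := e1.self_of_nhds
    have e3 : fderiv ℝ ζ x = 0 := by
      rw [e1.fderiv_eq]
      exact fderiv_const_apply _
    rw [hgd, e2, e3, hld]
    simp
  have hsurj : ∀ x v, ∃ z, fderiv ℝ ψ x z = v := by
    intro x v
    refine ⟨fderiv ℝ φ (ψ x) v, ?_⟩
    have e1 : HasFDerivAt (ψ ∘ φ) ((fderiv ℝ ψ x).comp (fderiv ℝ φ (ψ x))) (ψ x) := by
      have e2 : HasFDerivAt ψ (fderiv ℝ ψ x) (φ (ψ x)) := by
        rw [h.hφ.right]
        exact (hψd x).hasFDerivAt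
      exact e2.comp (ψ x) (hφd _).hasFDerivAt
    have e2 : ψ ∘ φ = id := by
      funext y
      exact h.hφ.left y
    rw [e2] at e1
    have e3 := e1.unique (hasFDerivAt_id (ψ x))
    have e4 : ((fderiv ℝ ψ x).comp (fderiv ℝ φ (ψ x))) v = (ContinuousLinearMap.id ℝ E) v := by
      rw [e3]
    simpa using e4
  have hwl : ∀ x, ‖x - p‖ < R → k x ≤ 0 → w x - l x ≤ 0 := by
    intro x hx hk
    have := h4 x hx hk
    rw [hw, hl]
    show θ * -⟪u, x - p⟫ - (1 - ⟪ψ p, ψ x⟫) / κ ≤ 0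
    linarith
  refine ⟨g, hgs, ?_, fun x hx h0 => ?_, fun x hx hne μ hμ h0 => ?_, fun x hx hne => ?_⟩
  · filter_upwards [hζ1] with x hx
    rw [hg]
    show (l x + ζ x * (w x - l x)) / θ = _
    rw [hx, hw]
    field_simp
    ring
  · rcases lt_or_ge ‖x - p‖ R with hxR | hxR
    · obtain ⟨s1, -⟩ := h.side (by linarith) (by linarith) hx
      have e1 := hgd x (-u)
      rw [h0, zero_apply, hld, hwd, map_neg (fderiv ℝ ψ x), inner_neg_right, neg_neg,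
        inner_neg_right, huu] at e1
      have e2 : fderiv ℝ ζ x (-u) ≤ 0 := by
        refine hζd x _ ?_
        rw [inner_neg_right, real_inner_comm]
        linarith
      have e3 := hwl x hxR hx
      have e4 := h2 x hxR
      have e5 : 1 / 2 ≤ ⟪ψ p, fderiv ℝ ψ x u⟫ / κ := by
        rw [le_div_iff₀ hκ]
        linarith
      obtain ⟨z0, z1⟩ := hζ01 x
      have e6 : 0 ≤ (w x - l x) * fderiv ℝ ζ x (-u) := mul_nonneg_of_nonpos_of_nonpos e3 e2
      have e7 : 0 < (1 - ζ x) * (⟪ψ p, fderiv ℝ ψ x u⟫ / κ) + ζ x * -(θ * -1) +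
          (w x - l x) * fderiv ℝ ζ x (-u) := by
        rcases z0.lt_or_eq with z | z
        · have : 0 < ζ x * θ := mul_pos z hθ0
          have : 0 ≤ (1 - ζ x) * (⟪ψ p, fderiv ℝ ψ x u⟫ / κ) :=
            mul_nonneg (by linarith) (by linarith)
          linarith
        · rw [← z]
          linarith
      have e8 := div_pos e7 hθ0
      rw [← e1] at e8
      exact lt_irrefl _ e8
    · obtain ⟨z, hz⟩ := hsurj x (ψ p)
      have e1 := hout x z hxR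
      rw [h0, hz, real_inner_self_eq_norm_sq, hq1] at e1
      simp only [zero_apply] at e1
      have e2 : -(1 : ℝ) ^ 2 / κ / θ < 0 := by
        apply div_neg_of_neg_of_pos _ hθ0
        apply div_neg_of_neg_of_pos _ hκ
        norm_num
      linarith
  · rcases lt_or_ge ‖x - p‖ R with hxR | hxR
    · obtain ⟨T, t1, t2, t3, t4⟩ := h3 x hxR hx hne
      have e1 := hgd x T
      rw [h0, neg_apply, smul_apply, t1, smul_zero, neg_zero, hld, hwd] at e1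
      have e2 := hζd x T t3
      have e3 := hwl x hxR hx.le
      obtain ⟨z0, z1⟩ := hζ01 x
      have e6 : 0 ≤ (w x - l x) * fderiv ℝ ζ x T := mul_nonneg_of_nonpos_of_nonpos e3 e2
      have e5 : 0 < -⟪ψ p, fderiv ℝ ψ x T⟫ / κ := div_pos (by linarith) hκ
      have e7 : 0 < (1 - ζ x) * (-⟪ψ p, fderiv ℝ ψ x T⟫ / κ) + ζ x * -(θ * ⟪u, T⟫) +
          (w x - l x) * fderiv ℝ ζ x T := by
        have e8 : 0 < -(θ * ⟪u, T⟫) := by nlinarith
        rcases z0.lt_or_eq with z | z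
        · have : 0 < ζ x * -(θ * ⟪u, T⟫) := mul_pos z e8
          have : 0 ≤ (1 - ζ x) * (-⟪ψ p, fderiv ℝ ψ x T⟫ / κ) :=
            mul_nonneg (by linarith) e5.le
          linarith
        · rw [← z]
          linarith
      have e8 := div_pos e7 hθ0
      rw [← e1] at e8
      exact lt_irrefl _ e8
    · obtain ⟨ν, hν, hν1⟩ := ball_conormal h.hk h.hφ h.hle h.heq hx (hreg x hx)
      have hψx : ‖ψ x‖ = 1 := by rw [← h.heq, h.hφ.right, hx]
      have e1 : ∀ v, ⟪ψ p, v⟫ = (κ * θ * μ * ν) * ⟪ψ x, v⟫ := by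
        intro v
        obtain ⟨z, hz⟩ := hsurj x v
        have e2 := hout x z hxR
        rw [h0, neg_apply, smul_apply, hν1, hz, smul_eq_mul] at e2
        field_simp at e2
        linarith
      have e2 : ψ p = (κ * θ * μ * ν) • ψ x := by
        refine ext_inner_right ℝ fun v => ?_
        rw [e1, real_inner_smul_left]
      have e3 : 0 ≤ κ * θ * μ * ν := by positivity
      have e4 : κ * θ * μ * ν = 1 := by
        have e5 : ‖ψ p‖ = (κ * θ * μ * ν) * ‖ψ x‖ := by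
          conv_lhs => rw [e2]
          rw [norm_smul, Real.norm_of_nonneg e3]
        rw [hq1, hψx, mul_one] at e5
        exact e5.symm
      rw [e4, one_smul] at e2
      apply hne
      have e5 : φ (ψ p) = φ (ψ x) := by rw [e2]
      rw [h.hφ.right, h.hφ.right] at e5
      exact e5.symm
  · have hψx : ‖ψ x‖ ≤ 1 := by
      rw [← h.hle, h.hφ.right]
      exact hx
    have hlpos : 0 < l x := by
      rw [hl]
      apply div_pos _ hκ
      have e1 : 0 < ‖ψ x - ψ p‖ ^ 2 := by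
        have e2 : ψ x - ψ p ≠ 0 := by
          intro e3
          apply hne
          have e5 : φ (ψ x) = φ (ψ p) := by rw [sub_eq_zero.1 e3]
          rw [h.hφ.right, h.hφ.right] at e5
          exact e5
        have := norm_pos_iff.2 e2
        positivity
      rw [norm_sub_sq_real, hq1, real_inner_comm] at e1
      have e2 : ‖ψ x‖ ^ 2 ≤ 1 := by
        have := norm_nonneg (ψ x)
        nlinarith
      linarith
    have hgx : g x = ((1 - ζ x) * l x + ζ x * w x) / θ := by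
      rw [hg]
      show (l x + ζ x * (w x - l x)) / θ = _
      ring
    rw [hgx]
    apply div_pos _ hθ0
    obtain ⟨z0, z1⟩ := hζ01 x
    rcases lt_or_ge ‖x - p‖ R with hxR | hxR
    · obtain ⟨-, s2⟩ := h.side (by linarith) (by linarith) hx
      have e1 : 0 < w x := by
        rw [hw]
        exact mul_pos hθ0 (by linarith [s2 hne])
      rcases z0.lt_or_eq with z | z
      · have : 0 < ζ x * w x := mul_pos z e1
        have : 0 ≤ (1 - ζ x) * l x := mul_nonneg (by linarith) hlpos.le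
        linarith
      · rw [← z]
        linarith
    · rw [(hζ0 x hxR).self_of_nhds]
      linarith

/-- **The tip lemma.** On a ball which is given by a quadratic function near the boundary point `p`
there is a function without critical points, linear near `p`, whose gradient is nowhere an inner normal
except at `p`. -/
theorem tip_fun [FiniteDimensional ℝ E] {k : E → ℝ} (hk : ContDiff ℝ ∞ k) (hB : IsBall k)
    (hreg : ∀ x, k x = 0 → gradient k x ≠ 0) {p u : E} (hu : ‖u‖ = 1) {s r : ℝ} (hs : 0 < s)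
    (hr : 0 < r)
    (hloc : ∀ x, ‖x - p‖ < r → k x = ‖x - p‖ ^ 2 - 2 * ⟪u, x - p⟫ ^ 2 + 2 * s * ⟪u, x - p⟫) :
    ∃ g : E → ℝ, ContDiff ℝ ∞ g ∧ (∀ᶠ x in 𝓝 p, g x = -⟪u, x - p⟫) ∧
      (∀ x, k x ≤ 0 → gradient g x ≠ 0) ∧
      (∀ x, k x = 0 → x ≠ p → ∀ μ : ℝ, 0 ≤ μ → gradient g x ≠ -(μ • gradient k x)) ∧
      ∀ x, k x ≤ 0 → x ≠ p → 0 < g x := by
  obtain ⟨φ, ψ, hφ, -, hle, heq⟩ := ball_dif k hk hB
  have h : Tip k φ ψ p u s r := ⟨hk, hφ, hle, heq, hu, hs, hr, hloc⟩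
  obtain ⟨-, κ, hκ, hd⟩ := h.tip
  obtain ⟨m, R, hm, hR, hRr, hRs, h1, h2, h3⟩ := h.near hκ hd
  obtain ⟨θ, hθ0, -, h4⟩ := h.cmp hκ hm hRr hRs h1 h2
  have hreg' : ∀ x, k x = 0 → fderiv ℝ k x ≠ 0 := by
    intro x hx h0
    refine hreg x hx ?_
    rw [gradient, h0, map_zero]
  obtain ⟨g, g1, g2, g3, g4, g5⟩ := Tip_gen h hR hRr hRs hκ hθ0 h2 h3 h4 hreg'
  refine ⟨g, g1, g2, fun x hx h0 => g3 x hx ?_, fun x hx hne μ hμ h0 => g4 x hx hne μ hμ ?_, g5⟩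
  · rwa [gradient, LinearIsometryEquiv.map_eq_zero_iff] at h0
  · have e1 : (InnerProductSpace.toDual ℝ E).symm (fderiv ℝ g x) =
        (InnerProductSpace.toDual ℝ E).symm (-(μ • fderiv ℝ k x)) := by
      rw [map_neg, map_smulₛₗ]
      simpa [gradient] using h0
    exact (InnerProductSpace.toDual ℝ E).symm.injective e1

end Pool.Schoen
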