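import Pool.Agent.H.MP_6c077c_gt.Al.Straight
import Pool.Agent.H.MP_6c077c_gt.Al.SCut

/-! Cancellation: displacement in a fixed direction. -/

set_option autoImplicit false

namespace Pool.Schoen

open Filter Set
open scoped Topology RealInnerProductSpace ContDiff

variable {V : Type*} [NormedAddCommGroup V] [InnerProductSpace ℝ V]

theorem disp_smooth {F B : V → ℝ} (hF : ContDiff ℝ ∞ F) (hB : ContDiff ℝ ∞ B) (e : V) :
    ContDiff ℝ ∞ fun p : ℝ × V => F (p.2 - (p.1 * B p.2) • e) :=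
  hF.comp (contDiff_snd.sub ((contDiff_fst.mul (hB.comp contDiff_snd)).smul contDiff_const))

theorem disp_fd {F B : V → ℝ} (hF : ContDiff ℝ ∞ F) (hB : ContDiff ℝ ∞ B) (e : V) (t : ℝ)
    (x v : V) :
    fderiv ℝ (fun p : ℝ × V => F (p.2 - (p.1 * B p.2) • e)) (t, x) (0, v) =
      fderiv ℝ F (x - (t * B x) • e) (v - (t * fderiv ℝ B x v) • e) := by
  have h1 : HasFDerivAt (fun p : ℝ × V => p.2) (ContinuousLinearMap.snd ℝ ℝ V) (t, x) :=
    hasFDerivAt_snd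
  have h0 : HasFDerivAt (fun p : ℝ × V => p.1) (ContinuousLinearMap.fst ℝ ℝ V) (t, x) :=
    hasFDerivAt_fst
  have hb : HasFDerivAt B (fderiv ℝ B x) ((fun p : ℝ × V => p.2) (t, x)) :=
    (hB.differentiable (by simp) x).hasFDerivAt
  have h2 := hb.comp (t, x) h1
  have h4 := (h0.mul h2).smul_const e
  have h5 := h1.sub h4
  have h6 : HasFDerivAt F (fderiv ℝ F (x - (t * B x) • e))
      (((fun p : ℝ × V => p.2) - fun p : ℝ × V =>
        ((fun p : ℝ × V => p.1) * (B ∘ fun p : ℝ × V => p.2)) p • e) (t, x)) :=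
    (hF.differentiable (by simp) _).hasFDerivAt
  have h7 := h6.comp (t, x) h5
  have h8 : HasFDerivAt (fun p : ℝ × V => F (p.2 - (p.1 * B p.2) • e)) _ (t, x) := h7
  rw [h8.fderiv]
  simp

theorem disp_fd1 {F B : V → ℝ} (hF : ContDiff ℝ ∞ F) (hB : ContDiff ℝ ∞ B) (e x v : V) :
    fderiv ℝ (fun y => F (y - (B y) • e)) x v =
      fderiv ℝ F (x - (B x) • e) (v - (fderiv ℝ B x v) • e) := by
  have h1 := disp_fd hF hB e 1 x v
  rw [one_mul, one_mul] at h1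
  rw [← h1]
  have h2 : HasFDerivAt (fun y : V => ((1 : ℝ), y)) (ContinuousLinearMap.inr ℝ ℝ V) x :=
    hasFDerivAt_prodMk_right 1 x
  have h3 := ((disp_smooth hF hB e).differentiable (by simp) (1, x)).hasFDerivAt
  have h4 := HasFDerivAt.comp (f := fun y : V => ((1 : ℝ), y)) x h3 h2
  have h5 : ((fun p : ℝ × V => F (p.2 - (p.1 * B p.2) • e)) ∘ fun y : V => ((1 : ℝ), y)) =
      fun y => F (y - (B y) • e) := by
    funext y
    simp
  rw [h5] at h4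
  rw [h4.fderiv]
  rfl

/-- The chart: the model function near `c • e`. -/
structure VChart (F : V → ℝ) (e u : V) (c m r : ℝ) : Prop where
  he : ‖e‖ = 1
  hu : ‖u‖ = 1
  heu : ⟪e, u⟫ = 0
  hm : 0 < m
  hr : 0 < r
  loc : ∀ x, ‖orth e x‖ < 10 → |⟪e, x⟫ - c| < r →
    F x = ‖orth e x‖ ^ 2 - 2 * ⟪u, x⟫ ^ 2 - m * (⟪e, x⟫ - c)

variable {F : V → ℝ} {e u : V} {c m r : ℝ}

theorem VChart.fd (h : VChart F e u c m r) {x : V} (h1 : ‖orth e x‖ < 10)
    (h2 : |⟪e, x⟫ - c| < r) (v : V) :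
    fderiv ℝ F x v = 2 * (⟪x, v⟫ - ⟪e, x⟫ * ⟪e, v⟫) - 4 * ⟪u, x⟫ * ⟪u, v⟫ - m * ⟪e, v⟫ := by
  have hev : F =ᶠ[𝓝 x] fun x => ‖x‖ ^ 2 - ⟪e, x⟫ ^ 2 - 2 * ⟪u, x⟫ ^ 2 - m * (⟪e, x⟫ - c) := by
    have hc1 : Continuous fun x : V => ‖orth e x‖ := by
      unfold orth
      fun_prop
    have hc2 : Continuous fun x : V => |⟪e, x⟫ - c| := by fun_prop
    filter_upwards [(hc1.tendsto x).eventually (gt_mem_nhds h1),
      (hc2.tendsto x).eventually (gt_mem_nhds h2)] with y hy1 hy2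
    rw [h.loc y hy1 hy2, norm_orth_sq h.he]
  have d1 : HasFDerivAt (fun x : V => ‖x‖ ^ 2) (2 • innerSL ℝ x) x :=
    (hasStrictFDerivAt_norm_sq x).hasFDerivAt
  have d2 : HasFDerivAt (fun x : V => ⟪e, x⟫) (innerSL ℝ e) x := (innerSL ℝ e).hasFDerivAt
  have d3 : HasFDerivAt (fun x : V => ⟪u, x⟫) (innerSL ℝ u) x := (innerSL ℝ u).hasFDerivAt
  have d4 := ((d1.sub (d2.pow 2)).sub ((d3.pow 2).const_mul 2)).sub ((d2.sub_const c).const_mul m)
  have d5 : HasFDerivAt F (2 • innerSL ℝ x - (2 • ⟪e, x⟫ ^ (2 - 1)) • innerSL ℝ e -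
      (2 : ℝ) • ((2 • ⟪u, x⟫ ^ (2 - 1)) • innerSL ℝ u) - m • innerSL ℝ e) x :=
    d4.congr_of_eventuallyEq hev
  rw [d5.fderiv]
  simp [innerSL_apply_apply]
  ring

end Pool.Schoen
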