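import Pool.Agent.H.MP_6c077c_gt.Ca.VnA

/-! Cancellation: vertical normal form at a saddle. -/

set_option autoImplicit false

namespace Pool.Schoen

open Filter Set
open scoped Topology RealInnerProductSpace ContDiff

variable {V : Type*} [NormedAddCommGroup V] [InnerProductSpace ℝ V]
variable {F : V → ℝ} {e u : V} {c m r : ℝ}

/-- The cut off function of the chart. -/
structure VCut (χ : V → ℝ) (e : V) : Prop where
  smooth : ContDiff ℝ ∞ χ
  inv : ∀ x (s : ℝ), χ (x + s • e) = χ x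
  mem : ∀ x, 0 ≤ χ x ∧ χ x ≤ 1
  one : ∀ x, ‖orth e x‖ < 1 / 2 → χ x = 1
  zero : ∀ x, 5 ≤ ‖orth e x‖ → χ x = 0

private theorem VnB_orth (he : ‖e‖ = 1) (x : V) (s : ℝ) : orth e (x + s • e) = orth e x := by
  have hee : ⟪e, e⟫ = 1 := by rw [real_inner_self_eq_norm_sq, he]; norm_num
  unfold orth
  rw [inner_add_right, real_inner_smul_right, hee, mul_one, add_smul]
  abel

private theorem VnB_orthc (e : V) : Continuous fun x : V => orth e x := by
  unfold orth
  fun_prop

/-- The derivative of the cut off function is bounded. -/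
theorem VCut.bound [FiniteDimensional ℝ V] {χ : V → ℝ} (h : VCut χ e) (he : ‖e‖ = 1) :
    ∃ M : ℝ, 0 < M ∧ ∀ x, ‖fderiv ℝ χ x‖ ≤ M := by
  have : ProperSpace V := FiniteDimensional.proper ℝ V
  have hinv : ∀ x (s : ℝ), fderiv ℝ χ (x + s • e) = fderiv ℝ χ x := by
    intro x s
    have h1 : (fun y => χ (y + s • e)) = χ := by
      funext y
      exact h.inv y s
    have h2 := fderiv_comp_add_right (𝕜 := ℝ) (f := χ) (x := x) (s • e)
    rw [h1] at h2
    exact h2.symm
  have hc : Continuous (fderiv ℝ χ) := h.smooth.continuous_fderiv (by simp)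
  obtain ⟨M, hM⟩ := (isCompact_closedBall (0 : V) 6).exists_bound_of_continuousOn hc.continuousOn
  refine ⟨max M 1, lt_max_of_lt_right one_pos, fun x => ?_⟩
  rcases le_or_gt ‖orth e x‖ 5 with h5 | h5
  · have h1 : x = orth e x + ⟪e, x⟫ • e := by
      unfold orth
      abel
    rw [h1, hinv]
    exact (hM _ (by rw [Metric.mem_closedBall, dist_zero_right]; linarith)).trans (le_max_left _ _)
  · have h1 : χ =ᶠ[𝓝 x] fun _ => 0 := by
      filter_upwards [((VnB_orthc e).norm.tendsto x).eventually (lt_mem_nhds h5)] with y hy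
      exact h.zero y hy.le
    rw [h1.fderiv_eq, fderiv_const_apply, norm_zero]
    exact le_max_of_le_right zero_le_one

/-- A horizontal descent vector. -/
private theorem VnB_vec [CompleteSpace V] (he : ‖e‖ = 1) {x : V}
    (hx : ∀ l : ℝ, gradient F x ≠ l • e) : ∃ v, ⟪e, v⟫ = 0 ∧ fderiv ℝ F x v < 0 := by
  obtain ⟨g, hg⟩ : ∃ g, g = gradient F x := ⟨_, rfl⟩
  obtain ⟨v, hv⟩ : ∃ v, v = ⟪e, g⟫ • e - g := ⟨_, rfl⟩
  have he2 : ⟪e, e⟫ = 1 := by rw [real_inner_self_eq_norm_sq, he]; norm_num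
  have hev : ⟪e, v⟫ = 0 := by
    rw [hv, inner_sub_right, real_inner_smul_right, he2]
    ring
  refine ⟨v, hev, ?_⟩
  have hv0 : v ≠ 0 := by
    intro h0
    apply hx ⟪e, g⟫
    rw [← hg]
    rw [hv, sub_eq_zero] at h0
    exact h0.symm
  have h1 : g = ⟪e, g⟫ • e - v := by rw [hv]; abel
  have h2 : ⟪gradient F x, v⟫ = fderiv ℝ F x v := by
    rw [gradient, InnerProductSpace.toDual_symm_apply]
  rw [← h2, ← hg, h1, inner_sub_left, real_inner_smul_left, hev, mul_zero, zero_sub,
    real_inner_self_eq_norm_sq]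
  have : 0 < ‖v‖ := norm_pos_iff.2 hv0
  have : 0 < ‖v‖ ^ 2 := by positivity
  linarith

/-- The calculation in the chart. -/
private theorem VnB_chart (h : VChart F e u c m r) {z : V} (h1 : ‖orth e z‖ < 10)
    (h2 : |⟪e, z⟫ - c| < r) {L : V →L[ℝ] ℝ} (hL : m * ‖L‖ < 2 * ‖orth e z‖) :
    ∃ v, ⟪e, v⟫ = 0 ∧ fderiv ℝ F z (v + (L v) • e) < 0 := by
  have hee : ⟪e, e⟫ = 1 := by rw [real_inner_self_eq_norm_sq, h.he]; norm_num
  have huu : ⟪u, u⟫ = 1 := by rw [real_inner_self_eq_norm_sq, h.hu]; norm_num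
  have hue : ⟪u, e⟫ = 0 := by rw [real_inner_comm, h.heu]
  obtain ⟨y, hy⟩ : ∃ y, y = orth e z := ⟨_, rfl⟩
  rw [← hy] at hL
  have hzy : z = y + ⟪e, z⟫ • e := by
    rw [hy]
    unfold orth
    abel
  have hey : ⟪e, y⟫ = 0 := by
    rw [hy]
    unfold orth
    rw [inner_sub_right, real_inner_smul_right, hee]
    ring
  obtain ⟨a, ha⟩ : ∃ a, a = ⟪u, z⟫ := ⟨_, rfl⟩
  have huy : ⟪u, y⟫ = a := by
    rw [hy]
    unfold orth
    rw [inner_sub_right, real_inner_smul_right, hue, ha]
    ring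
  have hyu : ⟪y, u⟫ = a := by rw [real_inner_comm, huy]
  obtain ⟨v, hv⟩ : ∃ v, v = (2 * a) • u - y := ⟨_, rfl⟩
  have hev : ⟪e, v⟫ = 0 := by
    rw [hv, inner_sub_right, real_inner_smul_right, h.heu, hey]
    ring
  have huv : ⟪u, v⟫ = a := by
    rw [hv, inner_sub_right, real_inner_smul_right, huu, huy]
    ring
  have hyv : ⟪y, v⟫ = 2 * a ^ 2 - ‖y‖ ^ 2 := by
    rw [hv, inner_sub_right, real_inner_smul_right, hyu, real_inner_self_eq_norm_sq]
    ring
  have hzv : ⟪z, v⟫ = 2 * a ^ 2 - ‖y‖ ^ 2 := by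
    conv_lhs => rw [hzy]
    rw [inner_add_left, real_inner_smul_left, hev, hyv]
    ring
  have hnv : ‖v‖ = ‖y‖ := by
    have h3 : ‖v‖ ^ 2 = ‖y‖ ^ 2 := by
      rw [hv, norm_sub_sq_real, norm_smul, h.hu, real_inner_smul_left, huy, mul_one,
        Real.norm_eq_abs, sq_abs]
      ring
    exact (pow_left_inj₀ (norm_nonneg _) (norm_nonneg _) two_ne_zero).1 h3
  refine ⟨v, hev, ?_⟩
  have hze : ⟪z, e⟫ = ⟪e, z⟫ := real_inner_comm _ _
  rw [h.fd h1 h2, inner_add_right, inner_add_right, inner_add_right, real_inner_smul_right,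
    real_inner_smul_right, real_inner_smul_right, hee, hev, hzv, huv, hue, hze, ← ha]
  have h4 := L.le_opNorm v
  rw [hnv, Real.norm_eq_abs] at h4
  have h5 := (abs_le.1 h4).1
  have h6 : 0 < ‖y‖ := by
    have := mul_nonneg h.hm.le (norm_nonneg L)
    linarith
  have h7 : m * ‖L‖ * ‖y‖ < 2 * ‖y‖ * ‖y‖ := mul_lt_mul_of_pos_right hL h6
  have h8 : -(m * L v) ≤ m * (‖L‖ * ‖y‖) := by
    have := mul_le_mul_of_nonneg_left h5 h.hm.le
    linarith
  nlinarith

/-- Away from the chart there are no horizontal zeros near the level. -/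
private theorem VnB_near [FiniteDimensional ℝ V] (hF : ContDiff ℝ ∞ F)
    (hb : Bornology.IsBounded {x | F x = 0}) (he : ‖e‖ = 1)
    (hc : ∀ x, F x = 0 → ⟪e, x⟫ = c → ∀ l : ℝ, gradient F x = l • e → x = c • e) :
    ∃ η : ℝ, 0 < η ∧ ∀ x, F x = 0 → 6 ≤ ‖orth e x‖ → |⟪e, x⟫ - c| ≤ η →
      ∀ l : ℝ, gradient F x ≠ l • e := by
  have : ProperSpace V := FiniteDimensional.proper ℝ V
  have hFg : Continuous fun x => fderiv ℝ F x := hF.continuous_fderiv (by simp)
  have hgr : Continuous fun x => gradient F x := by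
    unfold gradient
    exact (InnerProductSpace.toDual ℝ V).symm.continuous.comp hFg
  have hih : Continuous fun x : V => ⟪e, x⟫ := by fun_prop
  have he2 : ⟪e, e⟫ = 1 := by rw [real_inner_self_eq_norm_sq, he]; norm_num
  obtain ⟨P, hP⟩ : ∃ P : V → V, P = fun x => gradient F x - ⟪e, gradient F x⟫ • e := ⟨_, rfl⟩
  have hPc : Continuous P := by
    rw [hP]
    exact hgr.sub ((hih.comp hgr).smul continuous_const)
  have hPl : ∀ x (l : ℝ), gradient F x = l • e → P x = 0 := by
    intro x l h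
    rw [hP]
    simp only
    rw [h, real_inner_smul_right, he2, mul_one, sub_self]
  obtain ⟨K, hK⟩ : ∃ K : Set V, K = {x | F x = 0} ∩ ({x | P x = 0} ∩ {x | 6 ≤ ‖orth e x‖}) :=
    ⟨_, rfl⟩
  have hKc : IsCompact K := by
    rw [hK]
    refine Metric.isCompact_of_isClosed_isBounded ?_ (hb.subset inter_subset_left)
    exact (isClosed_eq hF.continuous continuous_const).inter
      ((isClosed_eq hPc continuous_const).inter (isClosed_le continuous_const (VnB_orthc e).norm))
  have hKf : IsClosed ((fun x : V => ⟪e, x⟫) '' K) := (hKc.image hih).isClosed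
  have hcK : c ∉ (fun x : V => ⟪e, x⟫) '' K := by
    rintro ⟨x, hx, hxc⟩
    rw [hK] at hx
    have h1 : P x = 0 := hx.2.1
    rw [hP] at h1
    have h2 := hc x hx.1 hxc ⟪e, gradient F x⟫ (sub_eq_zero.1 h1)
    have h3 : (6 : ℝ) ≤ ‖orth e x‖ := hx.2.2
    rw [h2] at h3
    unfold orth at h3
    rw [real_inner_smul_right, he2, mul_one, sub_self, norm_zero] at h3
    norm_num at h3
  obtain ⟨ε, hε, hball⟩ := Metric.isOpen_iff.1 hKf.isOpen_compl c hcK
  refine ⟨ε / 2, by positivity, ?_⟩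
  intro x hx hx6 hxc l hl
  have h1 : (fun x : V => ⟪e, x⟫) x ∈ ((fun x : V => ⟪e, x⟫) '' K)ᶜ := by
    apply hball
    rw [Metric.mem_ball, Real.dist_eq]
    exact hxc.trans_lt (by linarith)
  apply h1
  refine ⟨x, ?_, rfl⟩
  rw [hK]
  exact ⟨hx, hPl x l hl, hx6⟩

/-- **Vertical normal form.** In a slab around the height of the saddle `c • e` the function depends on
the height only in the chart. -/
theorem vn [FiniteDimensional ℝ V] (hF : ContDiff ℝ ∞ F) (hb : Bornology.IsBounded {x | F x = 0})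
    (hr : ∀ x, F x = 0 → gradient F x ≠ 0) (h : VChart F e u c m r) {δ : ℝ} (hδ : 0 < δ)
    (hc : ∀ x, F x = 0 → ⟪e, x⟫ = c → ∀ l : ℝ, gradient F x = l • e → x = c • e)
    {χ : V → ℝ} (hχ : VCut χ e) :
    ∃ (F' : V → ℝ) (a : ℝ), 0 < a ∧ a < δ ∧ a < r ∧ ContDiff ℝ ∞ F' ∧ Hom F F' ∧
      Bornology.IsBounded {x | F' x = 0} ∧ (∀ x, F' x = 0 → gradient F' x ≠ 0) ∧
      (∀ x, δ ≤ |⟪e, x⟫ - c| → F' =ᶠ[𝓝 x] F) ∧
      (∀ x, ⟪e, x⟫ = c → F' x = F x) ∧
      (∀ x, |⟪e, x⟫ - c| ≤ a → F' x = F (orth e x + c • e) - m * χ x * (⟪e, x⟫ - c)) ∧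
      (∀ x, |⟪e, x⟫ - c| ≤ a → F' x = 0 → ∀ l : ℝ, gradient F' x = l • e → x = c • e) ∧
      (∀ x, |⟪e, x⟫ - c| ≤ a → F x = 0 → ∀ l : ℝ, gradient F x = l • e → x = c • e) ∧
      (∀ x (l : ℝ), F' x = 0 → gradient F' x = l • e → F' =ᶠ[𝓝 x] F) ∧
      (∀ x (l : ℝ), F x = 0 → gradient F x = l • e → F' =ᶠ[𝓝 x] F) := by
  have he := h.he
  have hm := h.hm
  have hr0 := h.hr
  obtain ⟨M, hM, hMb⟩ := hχ.bound he
  obtain ⟨η₀, hη₀, hnear⟩ := VnB_near hF hb he hc
  obtain ⟨η, hη, hηδ, hηr, hη0, hηM⟩ : ∃ η : ℝ, 0 < η ∧ η < δ ∧ η < r ∧ η ≤ η₀ ∧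
      m * (η * M) < 1 := by
    refine ⟨min (min (δ / 2) (r / 2)) (min η₀ (1 / (2 * (m * M)))), ?_, ?_, ?_, ?_, ?_⟩
    · refine lt_min (lt_min (by linarith) (by linarith)) (lt_min hη₀ (by positivity))
    · have := (min_le_left (min (δ / 2) (r / 2)) (min η₀ (1 / (2 * (m * M))))).trans
        (min_le_left _ _)
      linarith
    · have := (min_le_left (min (δ / 2) (r / 2)) (min η₀ (1 / (2 * (m * M))))).trans
        (min_le_right _ _)
      linarith
    · exact (min_le_right _ _).trans (min_le_left _ _)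
    · have h1 := (min_le_right (min (δ / 2) (r / 2)) (min η₀ (1 / (2 * (m * M))))).trans
        (min_le_right _ _)
      have h2 : 0 < m * M := by positivity
      rw [le_div_iff₀ (by positivity)] at h1
      nlinarith
  have hih : Continuous fun x : V => ⟪e, x⟫ := by fun_prop
  have he2 : ⟪e, e⟫ = 1 := by rw [real_inner_self_eq_norm_sq, he]; norm_num
  let bb : ContDiffBump c := ⟨η / 2, η, by positivity, by linarith⟩
  obtain ⟨β, hβd⟩ : ∃ β : ℝ → ℝ, β = fun s => bb s * (s - c) := ⟨_, rfl⟩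
  have hβ : ContDiff ℝ ∞ β := by
    rw [hβd]
    exact bb.contDiff.mul (contDiff_id.sub contDiff_const)
  have hb0 : ∀ s, 0 ≤ bb s := fun s => bb.nonneg
  have hb1 : ∀ s, bb s ≤ 1 := fun s => bb.le_one
  have hβ1 : ∀ s, |s - c| ≤ η / 2 → β s = s - c := by
    intro s hs
    have h1 : bb s = 1 := bb.one_of_mem_closedBall (by
      rw [Metric.mem_closedBall, Real.dist_eq]
      exact hs)
    rw [hβd]
    simp only
    rw [h1, one_mul]
  have hβ2 : ∀ s, η ≤ |s - c| → β s = 0 := by
    intro s hs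
    have h1 : bb s = 0 := bb.zero_of_le_dist (by
      rw [Real.dist_eq]
      exact hs)
    rw [hβd]
    simp only
    rw [h1, zero_mul]
  have hβ3 : ∀ s, |β s| ≤ η := by
    intro s
    rcases le_or_gt η |s - c| with h | h
    · rw [hβ2 s h, abs_zero]
      exact hη.le
    · rw [hβd]
      simp only
      rw [abs_mul, abs_of_nonneg (hb0 s)]
      calc bb s * |s - c| ≤ 1 * |s - c| := by
            apply mul_le_mul_of_nonneg_right (hb1 s) (abs_nonneg _)
        _ ≤ η := by linarith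
  -- the displacement
  obtain ⟨B, hB⟩ : ∃ B : V → ℝ, B = fun x => (1 - χ x) * β ⟪e, x⟫ := ⟨_, rfl⟩
  have hBx : ∀ x, B x = (1 - χ x) * β ⟪e, x⟫ := fun x => by rw [hB]
  have hes : ContDiff ℝ ∞ fun x : V => ⟪e, x⟫ := (innerSL ℝ e).contDiff
  have hBs : ContDiff ℝ ∞ B := by
    rw [hB]
    exact (contDiff_const.sub hχ.smooth).mul (hβ.comp hes)
  have hBd : ∀ x v, ⟪e, v⟫ = 0 → fderiv ℝ B x v = -(fderiv ℝ χ x v * β ⟪e, x⟫) := by
    intro x v hv
    have d1 := (hχ.smooth.differentiable (by simp) x).hasFDerivAt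
    have d2 : HasFDerivAt (fun x : V => ⟪e, x⟫) (innerSL ℝ e) x := (innerSL ℝ e).hasFDerivAt
    have d3 : HasDerivAt β (deriv β ⟪e, x⟫) ⟪e, x⟫ :=
      (hβ.differentiable (by simp) _).hasDerivAt
    have d4 := (d1.const_sub (1 : ℝ)).mul (d3.comp_hasFDerivAt x d2)
    have d5 : HasFDerivAt B ((1 - χ x) • deriv β ⟪e, x⟫ • innerSL ℝ e +
        β ⟪e, x⟫ • -fderiv ℝ χ x) x := by
      rw [hB]
      exact d4
    rw [d5.fderiv]
    simp [innerSL_apply_apply, hv]
    ring
  have hBabs : ∀ t : ℝ, 0 ≤ t → t ≤ 1 → ∀ x, |t * B x| ≤ η := by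
    intro t h0 h1 x
    obtain ⟨c0, c1⟩ := hχ.mem x
    rw [hBx, abs_mul, abs_mul, abs_of_nonneg h0, abs_of_nonneg (by linarith : 0 ≤ 1 - χ x)]
    have h2 := hβ3 ⟪e, x⟫
    have h3 : (1 - χ x) * |β ⟪e, x⟫| ≤ 1 * η :=
      mul_le_mul (by linarith) h2 (abs_nonneg _) zero_le_one
    have h4 : t * ((1 - χ x) * |β ⟪e, x⟫|) ≤ 1 * (1 * η) :=
      mul_le_mul h1 h3 (mul_nonneg (by linarith) (abs_nonneg _)) zero_le_one
    linarith
  have hht : ∀ (t : ℝ) (x : V), ⟪e, x - (t * B x) • e⟫ = ⟪e, x⟫ - t * B x := by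
    intro t x
    rw [inner_sub_right, real_inner_smul_right, he2, mul_one]
  have hor : ∀ (s : ℝ) (x : V), orth e (x - s • e) = orth e x := by
    intro s x
    have h1 := VnB_orth he x (-s)
    rw [neg_smul, ← sub_eq_add_neg] at h1
    exact h1
  have hin : ∀ t : ℝ, 0 ≤ t → t ≤ 1 → ∀ x, |⟪e, x⟫ - c| ≤ η →
      |⟪e, x - (t * B x) • e⟫ - c| ≤ η := by
    intro t ht0 ht1 x hs
    obtain ⟨c0, c1⟩ := hχ.mem x
    have e1 : ⟪e, x - (t * B x) • e⟫ - c = (1 - t * (1 - χ x) * bb ⟪e, x⟫) * (⟪e, x⟫ - c) := by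
      rw [hht, hBx, hβd]
      simp only
      ring
    have h2 : 0 ≤ t * (1 - χ x) * bb ⟪e, x⟫ :=
      mul_nonneg (mul_nonneg ht0 (by linarith)) (hb0 _)
    have h3 : t * (1 - χ x) * bb ⟪e, x⟫ ≤ 1 := by
      have h4 : t * (1 - χ x) ≤ 1 * 1 := mul_le_mul ht1 (by linarith) (by linarith) zero_le_one
      calc t * (1 - χ x) * bb ⟪e, x⟫ ≤ 1 * 1 :=
            mul_le_mul (by linarith) (hb1 _) (hb0 _) zero_le_one
        _ = 1 := one_mul 1
    rw [e1, abs_mul, abs_of_nonneg (by linarith)]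
    calc (1 - t * (1 - χ x) * bb ⟪e, x⟫) * |⟪e, x⟫ - c| ≤ 1 * |⟪e, x⟫ - c| := by
          apply mul_le_mul_of_nonneg_right (by linarith) (abs_nonneg _)
      _ ≤ η := by linarith
  -- the germ outside
  have hev : ∀ (t : ℝ) (x : V), η < |⟪e, x⟫ - c| →
      (fun y => F (y - (t * B y) • e)) =ᶠ[𝓝 x] F := by
    intro t x hx
    have h1 : ∀ᶠ y in 𝓝 x, η < |⟪e, y⟫ - c| := by
      have h2 : Continuous fun y : V => |⟪e, y⟫ - c| := (hih.sub continuous_const).abs
      exact (h2.tendsto x).eventually_const_lt hx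
    filter_upwards [h1] with y hy
    rw [hBx, hβ2 _ hy.le, mul_zero, mul_zero, zero_smul, sub_zero]
  -- near the saddle
  have hsad : ∀ x, ‖orth e x‖ < 1 / 2 → ∀ᶠ y in 𝓝 x, B y = 0 := by
    intro x hx
    filter_upwards [((VnB_orthc e).norm.tendsto x).eventually (gt_mem_nhds hx)] with y hy
    rw [hBx, hχ.one y hy]
    ring
  -- descent vectors
  have hdes : ∀ t : ℝ, 0 ≤ t → t ≤ 1 → ∀ x, F (x - (t * B x) • e) = 0 → |⟪e, x⟫ - c| ≤ η →
      x = c • e ∨ ∃ v, ⟪e, v⟫ = 0 ∧
        fderiv ℝ F (x - (t * B x) • e) (v - (t * fderiv ℝ B x v) • e) < 0 := by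
    intro t ht0 ht1 x hx hxc
    have hz := hin t ht0 ht1 x hxc
    have hoz := hor (t * B x) x
    rcases lt_or_ge ‖orth e x‖ 6 with h6 | h6
    · rcases lt_or_ge ‖orth e x‖ (1 / 2) with h7 | h7
      · by_cases h8 : orth e x = 0
        · left
          have hB0 : B x = 0 := (hsad x h7).self_of_nhds
          rw [hB0, mul_zero, zero_smul, sub_zero] at hx
          have h9 := h.loc x (by linarith) (by linarith)
          have hxe : x = ⟪e, x⟫ • e := by
            unfold orth at h8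
            exact sub_eq_zero.1 h8
          have hux : ⟪u, x⟫ = 0 := by
            rw [hxe, real_inner_smul_right, real_inner_comm e u, h.heu, mul_zero]
          rw [hx, h8, hux, norm_zero] at h9
          have h10 : m * (⟪e, x⟫ - c) = 0 := by linarith
          rcases mul_eq_zero.1 h10 with h11 | h11
          · exact absurd h11 hm.ne'
          · rw [hxe]
            congr 1
            linarith
        · right
          have h9 : 0 < ‖orth e x‖ := norm_pos_iff.2 h8
          obtain ⟨v, hv1, hv2⟩ := VnB_chart h (z := x - (t * B x) • e)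
            (by rw [hoz]; linarith) (by linarith) (L := 0) (by
              rw [hoz, norm_zero, mul_zero]
              linarith)
          refine ⟨v, hv1, ?_⟩
          have h10 : fderiv ℝ B x v = 0 := by
            have h11 : B =ᶠ[𝓝 x] fun _ => 0 := hsad x h7
            rw [h11.fderiv_eq, fderiv_const_apply]
            rfl
          rw [h10, mul_zero, zero_smul, sub_zero]
          simpa using hv2
      · right
        obtain ⟨L, hL⟩ : ∃ L : V →L[ℝ] ℝ, L = (t * β ⟪e, x⟫) • fderiv ℝ χ x := ⟨_, rfl⟩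
        have hLn : m * ‖L‖ < 2 * ‖orth e (x - (t * B x) • e)‖ := by
          rw [hoz, hL, norm_smul, Real.norm_eq_abs, abs_mul, abs_of_nonneg ht0]
          have h8 : t * |β ⟪e, x⟫| ≤ 1 * η := mul_le_mul ht1 (hβ3 _) (abs_nonneg _) zero_le_one
          have h9 : t * |β ⟪e, x⟫| * ‖fderiv ℝ χ x‖ ≤ 1 * η * M :=
            mul_le_mul h8 (hMb x) (norm_nonneg _) (by linarith)
          have h10 := mul_le_mul_of_nonneg_left h9 hm.le
          have h11 : m * (1 * η * M) < 1 := by
            rw [one_mul]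
            exact hηM
          linarith
        obtain ⟨v, hv1, hv2⟩ := VnB_chart h (z := x - (t * B x) • e)
          (by rw [hoz]; linarith) (by linarith) hLn
        refine ⟨v, hv1, ?_⟩
        have h10 : v - (t * fderiv ℝ B x v) • e = v + (L v) • e := by
          rw [hBd x v hv1, hL, sub_eq_add_neg, ← neg_smul]
          congr 2
          simp
          ring
        rw [h10]
        exact hv2
    · right
      obtain ⟨v, hv1, hv2⟩ := VnB_vec he
        (hnear (x - (t * B x) • e) hx (by rw [hoz]; exact h6) (hz.trans hη0))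
      refine ⟨v, hv1, ?_⟩
      have h10 : fderiv ℝ χ x = 0 := by
        have h11 : χ =ᶠ[𝓝 x] fun _ => 0 := by
          filter_upwards [((VnB_orthc e).norm.tendsto x).eventually
            (lt_mem_nhds (show (5 : ℝ) < ‖orth e x‖ by linarith))] with y hy
          exact hχ.zero y hy.le
        rw [h11.fderiv_eq, fderiv_const_apply]
      rw [hBd x v hv1, h10]
      simpa using hv2
  obtain ⟨F', hF'⟩ : ∃ F' : V → ℝ, F' = fun x => F (x - (B x) • e) := ⟨_, rfl⟩
  have hF's : ContDiff ℝ ∞ F' := by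
    rw [hF']
    exact hF.comp (contDiff_id.sub (hBs.smul contDiff_const))
  have hev' : ∀ x : V, η < |⟪e, x⟫ - c| → F' =ᶠ[𝓝 x] F := by
    intro x hx
    have h1 := hev 1 x hx
    simp only [one_mul] at h1
    rw [hF']
    exact h1
  have hce : ∀ x, x = c • e → F' =ᶠ[𝓝 x] F := by
    intro x hx
    have h1 : ‖orth e x‖ < 1 / 2 := by
      rw [hx]
      unfold orth
      rw [real_inner_smul_right, he2, mul_one, sub_self, norm_zero]
      norm_num
    filter_upwards [hsad x h1] with y hy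
    rw [hF']
    show F (y - (B y) • e) = F y
    rw [hy, zero_smul, sub_zero]
  have hgin : ∀ (G : V → ℝ) (x z : V), ⟪gradient G x, z⟫ = fderiv ℝ G x z := by
    intro G x z
    rw [gradient, InnerProductSpace.toDual_symm_apply]
  have hng : ∀ x, F' x = 0 → |⟪e, x⟫ - c| ≤ η → ∀ l : ℝ, gradient F' x = l • e → x = c • e := by
    intro x hx hxc l hl
    rcases hdes 1 zero_le_one le_rfl x (by
      rw [one_mul]
      rw [hF'] at hx
      exact hx) hxc with h1 | ⟨v, hv, h1⟩
    · exact h1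
    · exfalso
      rw [one_mul, one_mul, ← disp_fd1 hF hBs] at h1
      have h2 := hgin F' x v
      rw [hl, real_inner_smul_left, hv, mul_zero, hF'] at h2
      linarith
  have hngF : ∀ x, F x = 0 → |⟪e, x⟫ - c| ≤ η → ∀ l : ℝ, gradient F x = l • e → x = c • e := by
    intro x hx hxc l hl
    rcases hdes 0 le_rfl zero_le_one x (by
      rw [zero_mul, zero_smul, sub_zero]
      exact hx) hxc with h1 | ⟨v, hv, h1⟩
    · exact h1
    · exfalso
      rw [zero_mul, zero_smul, sub_zero, zero_mul, zero_smul, sub_zero] at h1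
      have h2 := hgin F x v
      rw [hl, real_inner_smul_left, hv, mul_zero] at h2
      linarith
  have hbdd : ∃ R : ℝ, ∀ x, F x = 0 → ‖x‖ ≤ R := hb.exists_norm_le
  obtain ⟨R, hR⟩ := hbdd
  have hsh : ∀ (t : ℝ) (x : V), 0 ≤ t → t ≤ 1 → ‖(t * B x) • e‖ ≤ η := by
    intro t x h0 h1
    rw [norm_smul, he, mul_one, Real.norm_eq_abs]
    exact hBabs t h0 h1 x
  have hR' : ∀ t : ℝ, 0 ≤ t → t ≤ 1 → ∀ x, F (x - (t * B x) • e) = 0 → ‖x‖ ≤ R + η := by
    intro t h0 h1 x hx
    have h2 := hR _ hx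
    have h3 := norm_add_le (x - (t * B x) • e) ((t * B x) • e)
    rw [sub_add_cancel] at h3
    linarith [hsh t x h0 h1]
  have hcE : fderiv ℝ F (c • e) e < 0 := by
    have h1 : orth e (c • e) = 0 := by
      unfold orth
      rw [real_inner_smul_right, he2, mul_one, sub_self]
    rw [h.fd (by rw [h1, norm_zero]; norm_num) (by
      rw [real_inner_smul_right, he2, mul_one, sub_self, abs_zero]
      exact hr0), real_inner_smul_left, real_inner_smul_right, he2, real_inner_comm e u, h.heu]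
    have := hm
    linarith
  refine ⟨F', η / 2, by positivity, by linarith, by linarith, hF's, ?_, ?_, ?_,
    ?_, ?_, ?_, ?_, ?_, ?_, ?_⟩
  · -- the homotopy
    refine ⟨fun t x => F (x - (t * B x) • e), (disp_smooth hF hBs e).continuous, ?_, ?_,
      ⟨R + η, fun t ht x hx => hR' t ht.1 ht.2 x hx⟩, ?_⟩
    · funext x
      simp
    · rw [hF']
      funext x
      simp
    · intro t ht x hx
      rcases le_or_gt |⟪e, x⟫ - c| η with h' | h'
      · rcases hdes t ht.1 ht.2 x hx h' with h1 | ⟨v, hv, h1⟩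
        · refine ⟨e, Desc.mono (desc_smooth (G := fun p : ℝ × V => F (p.2 - (p.1 * B p.2) • e))
            ((disp_smooth hF hBs e).contDiffAt.of_le (by simp)) ?_) nhdsWithin_le_nhds⟩
          rw [disp_fd hF hBs e t x e]
          have h2 : B =ᶠ[𝓝 x] fun _ => 0 := by
            refine hsad x ?_
            rw [h1]
            unfold orth
            rw [real_inner_smul_right, he2, mul_one, sub_self, norm_zero]
            norm_num
          rw [h2.fderiv_eq, fderiv_const_apply, h2.self_of_nhds]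
          simp only [mul_zero, zero_smul, sub_zero, zero_apply]
          rw [h1]
          exact hcE
        · refine ⟨v, Desc.mono (desc_smooth (G := fun p : ℝ × V => F (p.2 - (p.1 * B p.2) • e))
            ((disp_smooth hF hBs e).contDiffAt.of_le (by simp)) ?_) nhdsWithin_le_nhds⟩
          rw [disp_fd hF hBs e t x v]
          exact h1
      · have h0 : F x = 0 := by
          have h1 := (hev t x h').eq_of_nhds
          rw [← h1]
          exact hx
        have h1 : ∃ v, fderiv ℝ F x v < 0 := by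
          refine ⟨-gradient F x, ?_⟩
          rw [← hgin, inner_neg_right, real_inner_self_eq_norm_sq]
          have : 0 < ‖gradient F x‖ := norm_pos_iff.2 (hr x h0)
          have : 0 < ‖gradient F x‖ ^ 2 := by positivity
          linarith
        obtain ⟨v, hv⟩ := h1
        have h2 : Desc1 F x v := desc1_smooth (hF.contDiffAt.of_le (by simp)) hv
        refine ⟨v, Desc.congr (h2.const (𝓝[Icc 0 1] t)) ?_⟩
        have h3 : ∀ᶠ y in 𝓝 x, η < |⟪e, y⟫ - c| := by
          have h2 : Continuous fun y : V => |⟪e, y⟫ - c| := (hih.sub continuous_const).abs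
          exact (h2.tendsto x).eventually_const_lt h'
        filter_upwards [(tendsto_snd (f := 𝓝[Icc 0 1] t) (g := 𝓝 x)).eventually h3] with p hp
        rw [hBx, hβ2 _ hp.le, mul_zero, mul_zero, zero_smul, sub_zero]
  · refine (Metric.isBounded_closedBall (x := (0 : V)) (r := R + η)).subset fun x hx => ?_
    rw [Metric.mem_closedBall, dist_zero_right]
    refine hR' 1 zero_le_one le_rfl x ?_
    rw [one_mul]
    have hx' : F' x = 0 := hx
    rw [hF'] at hx'
    exact hx'
  · intro x hx h0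
    rcases le_or_gt |⟪e, x⟫ - c| η with h' | h'
    · have h1 := hng x hx h' 0 (by rw [h0, zero_smul])
      have h2 : fderiv ℝ F' x = fderiv ℝ F x := (hce x h1).fderiv_eq
      have h3 := hgin F' x e
      rw [h0, inner_zero_left, h2, h1] at h3
      linarith
    · have h1 := hev' x h'
      have h2 : F x = 0 := by rw [← h1.eq_of_nhds]; exact hx
      apply hr x h2
      have h3 : fderiv ℝ F' x = fderiv ℝ F x := h1.fderiv_eq
      rw [← h0]
      unfold gradient
      rw [h3]
  · intro x hx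
    exact hev' x (by linarith)
  · intro x hx
    rw [hF']
    simp only
    rw [hBx, hβ1 _ (by rw [hx, sub_self, abs_zero]; positivity), hx, sub_self, mul_zero,
      zero_smul, sub_zero]
  · intro x hx
    have hxo : x - (B x) • e = orth e x + (c + χ x * (⟪e, x⟫ - c)) • e := by
      rw [hBx, hβ1 _ hx]
      unfold orth
      module
    rw [hF']
    show F (x - (B x) • e) = _
    rw [hxo]
    have hoo : orth e (orth e x) = orth e x := by
      have h1 := hor ⟪e, x⟫ x
      exact h1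
    have heo : ⟪e, orth e x⟫ = 0 := by
      unfold orth
      rw [inner_sub_right, real_inner_smul_right, he2]
      ring
    rcases lt_or_ge ‖orth e x‖ 10 with h10 | h10
    · obtain ⟨c0, c1⟩ := hχ.mem x
      have e1 : ∀ s : ℝ, orth e (orth e x + s • e) = orth e x := by
        intro s
        rw [VnB_orth he, hoo]
      have e2 : ∀ s : ℝ, ⟪e, orth e x + s • e⟫ = s := by
        intro s
        rw [inner_add_right, real_inner_smul_right, he2, heo]
        ring
      have e3 : ∀ s : ℝ, ⟪u, orth e x + s • e⟫ = ⟪u, x⟫ := by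
        intro s
        unfold orth
        rw [inner_add_right, inner_sub_right, real_inner_smul_right, real_inner_smul_right,
          real_inner_comm e u, h.heu]
        ring
      have e4 : |χ x * (⟪e, x⟫ - c)| < r := by
        rw [abs_mul, abs_of_nonneg c0]
        have : χ x * |⟪e, x⟫ - c| ≤ 1 * (η / 2) := mul_le_mul c1 hx (abs_nonneg _) zero_le_one
        linarith
      rw [h.loc _ (by rw [e1]; exact h10) (by
          rw [e2, add_sub_cancel_left]
          exact e4),
        h.loc (orth e x + c • e) (by rw [e1]; exact h10) (by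
          rw [e2, sub_self, abs_zero]
          exact hr0), e1, e1, e2, e2, e3, e3]
      ring
    · rw [hχ.zero x (by linarith)]
      simp
  · intro x hx hx0
    exact hng x hx0 (by linarith)
  · intro x hx hx0
    exact hngF x hx0 (by linarith)
  · intro x l hx hl
    rcases le_or_gt |⟪e, x⟫ - c| η with h' | h'
    · exact hce x (hng x hx h' l hl)
    · exact hev' x h'
  · intro x l hx hl
    rcases le_or_gt |⟪e, x⟫ - c| η with h' | h'
    · exact hce x (hngF x hx h' l hl)
    · exact hev' x h'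

end Pool.Schoen
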