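import Pool.Agent.H.MP_6c077c_gt.Ca.VnA
import Pool.Agent.H.MP_6c077c_gt.Ix.ModDef
import Pool.Agent.H.MP_6c077c_gt.Al.Planar

/-! Cancellation: linear change of coordinates at a saddle. -/

set_option autoImplicit false

namespace Pool.Schoen

open Filter Set
open scoped Topology RealInnerProductSpace ContDiff

section lin

variable {E : Type*} [NormedAddCommGroup E] [InnerProductSpace ℝ E] [FiniteDimensional ℝ E]

/-- A positive definite form is the square of the norm after a linear change of coordinates. -/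
theorem form_iso (b : E →L[ℝ] E →L[ℝ] ℝ) (hb : ∀ v, v ≠ 0 → 0 < b v v) :
    ∃ T : E →L[ℝ] E, ∀ v, b (T v) (T v) = ‖v‖ ^ 2 := by
  classical
  have hcs : CompleteSpace E := FiniteDimensional.complete ℝ E
  obtain ⟨S, hS⟩ : ∃ S : E →ₗ[ℝ] E, ∀ v w, ⟪S v, w⟫ = (b v w + b w v) / 2 := by
    refine ⟨(((InnerProductSpace.toDual ℝ E).symm.toContinuousLinearEquiv.toContinuousLinearMap.comp
      ((2⁻¹ : ℝ) • (b + b.flip)) : E →L[ℝ] E) : E →ₗ[ℝ] E), fun v w => ?_⟩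
    have h1 : (((InnerProductSpace.toDual ℝ E).symm.toContinuousLinearEquiv.toContinuousLinearMap.comp
      ((2⁻¹ : ℝ) • (b + b.flip)) : E →L[ℝ] E) : E →ₗ[ℝ] E) v =
      (InnerProductSpace.toDual ℝ E).symm (((2⁻¹ : ℝ) • (b + b.flip)) v) := rfl
    rw [h1, InnerProductSpace.toDual_symm_apply]
    simp only [_root_.smul_apply, _root_.add_apply, ContinuousLinearMap.flip_apply, smul_eq_mul]
    ring
  have hsym : S.IsSymmetric := by
    intro v w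
    rw [hS, real_inner_comm, hS, add_comm]
  obtain ⟨n, hn⟩ : ∃ n, Module.finrank ℝ E = n := ⟨_, rfl⟩
  obtain ⟨β, hβ⟩ : ∃ β, β = hsym.eigenvectorBasis hn := ⟨_, rfl⟩
  obtain ⟨κ, hκ⟩ : ∃ κ, κ = hsym.eigenvalues hn := ⟨_, rfl⟩
  have hSb : ∀ i, S (β i) = κ i • β i := by
    intro i
    rw [hβ, hκ]
    exact hsym.apply_eigenvectorBasis hn i
  have hκ0 : ∀ i, 0 < κ i := by
    intro i
    have h0 : β i ≠ 0 := by
      intro h0
      have := β.norm_eq_one i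
      rw [h0, norm_zero] at this
      norm_num at this
    have h1 := hb (β i) h0
    have h2 := hS (β i) (β i)
    rw [hSb, real_inner_smul_left, real_inner_self_eq_norm_sq, β.norm_eq_one] at h2
    linarith
  refine ⟨∑ i, (Real.sqrt (κ i))⁻¹ • (innerSL ℝ (β i)).smulRight (β i), fun v => ?_⟩
  obtain ⟨y, hy⟩ : ∃ y, y = (∑ i, (Real.sqrt (κ i))⁻¹ • (innerSL ℝ (β i)).smulRight (β i)) v :=
    ⟨_, rfl⟩
  have hy' : y = ∑ i, ((Real.sqrt (κ i))⁻¹ * ⟪β i, v⟫) • β i := by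
    rw [hy]
    simp [smul_smul]
  have hyi : ∀ i, ⟪β i, y⟫ = (Real.sqrt (κ i))⁻¹ * ⟪β i, v⟫ := by
    intro i
    rw [hy']
    exact β.orthonormal.inner_right_fintype _ i
  have h1 : b y y = ⟪S y, y⟫ := by
    rw [hS]
    ring
  rw [← hy, h1]
  have h2 : S y = ∑ i, ((Real.sqrt (κ i))⁻¹ * ⟪β i, v⟫ * κ i) • β i := by
    rw [hy', map_sum]
    refine Finset.sum_congr rfl fun i _ => ?_
    rw [map_smul, hSb, smul_smul]
  rw [h2, sum_inner]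
  have h3 : ∀ i ∈ Finset.univ, ⟪((Real.sqrt (κ i))⁻¹ * ⟪β i, v⟫ * κ i) • β i, y⟫ =
      ‖⟪β i, v⟫‖ ^ 2 := by
    intro i _
    rw [real_inner_smul_left, hyi, Real.norm_eq_abs, sq_abs]
    have h4 : Real.sqrt (κ i) ≠ 0 := (Real.sqrt_pos.2 (hκ0 i)).ne'
    have h5 : Real.sqrt (κ i) ^ 2 = κ i := Real.sq_sqrt (hκ0 i).le
    field_simp
    rw [h5]
    ring
  rw [Finset.sum_congr rfl h3]
  exact β.sum_sq_norm_inner_right v

/-- The form of index one. -/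
theorem form_iso1 {u : E} (hu : ‖u‖ = 1) (b : E →L[ℝ] E →L[ℝ] ℝ)
    (hb : ∀ v, ⟪u, v⟫ = 0 → v ≠ 0 → 0 < b v v) {a : ℝ} (ha : 0 < a) :
    ∃ T : E ≃L[ℝ] E, ∀ w, -(a * ⟪u, T w⟫ ^ 2) + b (orth u (T w)) (orth u (T w)) =
      ‖orth u w‖ ^ 2 - ⟪u, w⟫ ^ 2 := by
  have huu : ⟪u, u⟫ = 1 := by rw [real_inner_self_eq_norm_sq, hu]; norm_num
  obtain ⟨b', hb'⟩ : ∃ b' : (ℝ ∙ u)ᗮ →L[ℝ] (ℝ ∙ u)ᗮ →L[ℝ] ℝ, ∀ v w, b' v w = b (v : E) (w : E) :=
    ⟨(b.bilinearComp (ℝ ∙ u)ᗮ.subtypeL (ℝ ∙ u)ᗮ.subtypeL), fun v w => rfl⟩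
  obtain ⟨T, hT⟩ := form_iso b' (fun v hv => by
    rw [hb']
    refine hb v (BaseDef_inner u v) fun h => hv ?_
    ext
    exact h)
  obtain ⟨R, hR⟩ : ∃ R : E →L[ℝ] E, ∀ w, R w = ((T (hpr u w) : (ℝ ∙ u)ᗮ) : E) +
      ((Real.sqrt a)⁻¹ * ⟪u, w⟫) • u := by
    refine ⟨(ℝ ∙ u)ᗮ.subtypeL.comp (T.comp (hprL u)) +
      (Real.sqrt a)⁻¹ • (innerSL ℝ u).smulRight u, fun w => ?_⟩
    simp only [_root_.add_apply, ContinuousLinearMap.comp_apply, _root_.smul_apply,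
      ContinuousLinearMap.smulRight_apply, innerSL_apply_apply, hprL_apply, smul_smul]
    rfl
  have ho : ∀ w : E, orth u w = ((hpr u w : (ℝ ∙ u)ᗮ) : E) := by
    intro w
    have h1 := hpr_add hu w
    unfold orth
    exact (eq_sub_of_add_eq h1).symm
  have hRu : ∀ w, ⟪u, R w⟫ = (Real.sqrt a)⁻¹ * ⟪u, w⟫ := fun w => by
    rw [hR, inner_hpr hu]
  have hRo : ∀ w, orth u (R w) = ((T (hpr u w) : (ℝ ∙ u)ᗮ) : E) := fun w => by
    rw [ho, hR, hpr_coe hu]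
  have hkey : ∀ w, -(a * ⟪u, R w⟫ ^ 2) + b (orth u (R w)) (orth u (R w)) =
      ‖orth u w‖ ^ 2 - ⟪u, w⟫ ^ 2 := by
    intro w
    rw [hRu, hRo, ← hb', hT, ho, Submodule.coe_norm]
    have h4 : Real.sqrt a ≠ 0 := (Real.sqrt_pos.2 ha).ne'
    have h5 : Real.sqrt a ^ 2 = a := Real.sq_sqrt ha.le
    rw [mul_pow, inv_pow, h5]
    field_simp
    ring
  have hinj : Function.Injective R := by
    rw [injective_iff_map_eq_zero]
    intro w hw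
    have h1 : ⟪u, w⟫ = 0 := by
      have h2 := hRu w
      rw [hw, inner_zero_right] at h2
      have h3 : (Real.sqrt a)⁻¹ ≠ 0 := inv_ne_zero (Real.sqrt_pos.2 ha).ne'
      exact (mul_eq_zero.1 h2.symm).resolve_left h3
    have h2 := hkey w
    rw [hw, inner_zero_right, h1] at h2
    have h3 : orth u (0 : E) = 0 := by simp [orth]
    rw [h3, map_zero] at h2
    have h4 : ‖orth u w‖ = 0 := by
      have : ‖orth u w‖ ^ 2 = 0 := by linarith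
      exact pow_eq_zero_iff (two_ne_zero) |>.1 this
    have h5 := norm_eq_zero.1 h4
    unfold orth at h5
    rw [h1, zero_smul, sub_zero] at h5
    exact h5
  refine ⟨(LinearEquiv.ofInjectiveEndo (R : E →ₗ[ℝ] E) hinj).toContinuousLinearEquiv, fun w => ?_⟩
  exact hkey w

end lin

variable {V : Type*} [NormedAddCommGroup V] [InnerProductSpace ℝ V] [FiniteDimensional ℝ V]

/-- **Coordinates at a saddle.** -/
theorem vchart_of_mod1 {g : V → ℝ} {e u p : V} {B : V →L[ℝ] V →L[ℝ] ℝ} {μ a r : ℝ}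
    (h : Mod1 g e u p B μ a r) :
    ∃ (φ ψ : (ℝ ∙ e)ᗮ → (ℝ ∙ e)ᗮ) (l m r' : ℝ), Dif φ ψ ∧ 0 < l ∧
      extH e φ (⟪e, p⟫ • e) = p ∧ VChart (fun x => l * g (extH e φ x)) e u ⟪e, p⟫ m r' := by
  obtain ⟨u', hu'⟩ : ∃ u' : (ℝ ∙ e)ᗮ, (u' : V) = u :=
    ⟨⟨u, Submodule.mem_orthogonal_singleton_iff_inner_right.2 h.heu⟩, rfl⟩
  have hun : ‖u'‖ = 1 := by rw [Submodule.coe_norm, hu', h.hu]
  obtain ⟨b, hb⟩ : ∃ b : (ℝ ∙ e)ᗮ →L[ℝ] (ℝ ∙ e)ᗮ →L[ℝ] ℝ, ∀ v w, b v w = B (v : V) (w : V) / 2 :=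
    ⟨(2⁻¹ : ℝ) • (B.bilinearComp (ℝ ∙ e)ᗮ.subtypeL (ℝ ∙ e)ᗮ.subtypeL), fun v w => by
      have h1 : ((2⁻¹ : ℝ) • (B.bilinearComp (ℝ ∙ e)ᗮ.subtypeL (ℝ ∙ e)ᗮ.subtypeL)) v w =
        2⁻¹ * B (v : V) (w : V) := rfl
      rw [h1]
      ring⟩
  have huv : ∀ v : (ℝ ∙ e)ᗮ, ⟪u', v⟫ = ⟪u, (v : V)⟫ := fun v => by
    rw [Submodule.coe_inner, hu']
  obtain ⟨T, hT⟩ := form_iso1 hun b (fun v hv hv0 => by
    rw [hb]
    have h1 := h.hB v (BaseDef_inner e v) (by rw [← huv]; exact hv) fun h2 => hv0 (by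
      ext
      exact h2)
    linarith) (half_pos h.ha)
  obtain ⟨M, hM0, hM⟩ : ∃ M : ℝ, 0 < M ∧ ∀ w, ‖T w‖ ≤ M * ‖w‖ :=
    ⟨‖(T : (ℝ ∙ e)ᗮ →L[ℝ] (ℝ ∙ e)ᗮ)‖ + 1, by positivity, fun w => by
      refine ((T : (ℝ ∙ e)ᗮ →L[ℝ] (ℝ ∙ e)ᗮ).le_opNorm w).trans ?_
      have := norm_nonneg w
      nlinarith⟩
  have hr := h.hr
  obtain ⟨ε, hε, hεM⟩ : ∃ ε : ℝ, 0 < ε ∧ ε * (M * 10) = r / 2 :=
    ⟨r / (20 * M), by positivity, by field_simp; norm_num⟩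
  have he := h.he
  refine ⟨fun w => hpr e p + ε • T w, fun w => T.symm (ε⁻¹ • (w - hpr e p)), (ε ^ 2)⁻¹,
    μ * (ε ^ 2)⁻¹, r / 2, ⟨?_, ?_, fun w => ?_, fun w => ?_⟩, by positivity, ?_, ?_⟩
  · exact contDiff_const.add (T.contDiff.const_smul ε)
  · exact T.symm.contDiff.comp ((contDiff_id.sub contDiff_const).const_smul ε⁻¹)
  · rw [add_sub_cancel_left, smul_smul, inv_mul_cancel₀ hε.ne', one_smul,
      ContinuousLinearEquiv.symm_apply_apply]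
  · rw [ContinuousLinearEquiv.apply_symm_apply, smul_smul, mul_inv_cancel₀ hε.ne', one_smul]
    abel
  · unfold extH
    have h1 : hpr e (⟪e, p⟫ • e) = 0 := by
      have h2 := hpr_coe he (0 : (ℝ ∙ e)ᗮ) ⟪e, p⟫
      rwa [Submodule.coe_zero, zero_add] at h2
    have h2 : ⟪e, ⟪e, p⟫ • e⟫ = ⟪e, p⟫ := by
      rw [real_inner_smul_right, real_inner_self_eq_norm_sq, he]
      ring
    rw [h1, h2]
    simp only [map_zero, smul_zero, add_zero]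
    exact hpr_add he p
  · refine ⟨he, h.hu, h.heu, mul_pos h.hμ (by positivity), by linarith, fun x hx1 hx2 => ?_⟩
    have ho : orth e x = ((hpr e x : (ℝ ∙ e)ᗮ) : V) := by
      have h1 := hpr_add he x
      unfold orth
      exact (eq_sub_of_add_eq h1).symm
    obtain ⟨w, hw⟩ : ∃ w, w = hpr e x := ⟨_, rfl⟩
    rw [← hw] at ho
    obtain ⟨y, hy⟩ : ∃ y, y = extH e (fun w => hpr e p + ε • T w) x - p := ⟨_, rfl⟩
    have hy' : y = ((ε • T w : (ℝ ∙ e)ᗮ) : V) + (⟪e, x⟫ - ⟪e, p⟫) • e := by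
      rw [hy]
      unfold extH
      rw [← hw, Submodule.coe_add]
      have h1 := hpr_add he p
      rw [← h1, sub_smul]
      simp only [inner_hpr he]
      rw [hpr_coe he]
      abel
    have hye : ⟪e, y⟫ = ⟪e, x⟫ - ⟪e, p⟫ := by rw [hy', inner_hpr he]
    have hue : ⟪u, e⟫ = 0 := by rw [real_inner_comm]; exact h.heu
    have hyu : ⟪u, y⟫ = ε * ⟪u', T w⟫ := by
      rw [hy', inner_add_right, real_inner_smul_right, hue, mul_zero, add_zero, ← huv,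
        real_inner_smul_right]
    have hyw : wc e u y = ((ε • orth u' (T w) : (ℝ ∙ e)ᗮ) : V) := by
      rw [wc, hye, hyu, hy']
      unfold orth
      rw [Submodule.coe_smul, Submodule.coe_smul, Submodule.coe_sub, Submodule.coe_smul, hu',
        smul_sub, smul_smul]
      abel
    have hyn : ‖y‖ < r := by
      rw [hy']
      refine (norm_add_le _ _).trans_lt ?_
      have h0 : ‖((ε • T w : (ℝ ∙ e)ᗮ) : V)‖ = ε * ‖T w‖ := by
        rw [← Submodule.coe_norm, norm_smul, Real.norm_of_nonneg hε.le]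
      rw [h0, norm_smul, he, mul_one, Real.norm_eq_abs]
      have h1 : ‖w‖ < 10 := by
        rw [ho] at hx1
        exact hx1
      have h2 : ε * ‖T w‖ ≤ ε * (M * 10) :=
        mul_le_mul_of_nonneg_left ((hM w).trans (mul_le_mul_of_nonneg_left h1.le hM0.le)) hε.le
      linarith
    have h1 : g (extH e (fun w => hpr e p + ε • T w) x) = mdl1 B μ a e u p (extH e (fun w => hpr e p + ε • T w) x) :=
      h.hf _ (by rw [← hy]; exact hyn)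
    rw [h1, mdl1, ← hy, hye, hyu, hyw]
    have h2 := hT w
    rw [hb] at h2
    have h3 : B ((ε • orth u' (T w) : (ℝ ∙ e)ᗮ) : V) ((ε • orth u' (T w) : (ℝ ∙ e)ᗮ) : V) =
        ε ^ 2 * B ((orth u' (T w) : (ℝ ∙ e)ᗮ) : V) ((orth u' (T w) : (ℝ ∙ e)ᗮ) : V) := by
      rw [Submodule.coe_smul, map_smul, map_smul, _root_.smul_apply, smul_eq_mul, smul_eq_mul]
      ring
    rw [h3]
    have hwn : ‖orth e x‖ ^ 2 = ‖orth u' w‖ ^ 2 + ⟪u', w⟫ ^ 2 := by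
      rw [ho, ← Submodule.coe_norm]
      have h4 : ‖orth u' w‖ ^ 2 = ‖w‖ ^ 2 - ⟪u', w⟫ ^ 2 := norm_orth_sq hun w
      linarith
    have hxu : ⟪u, x⟫ = ⟪u', w⟫ := by
      rw [← hpr_add he x, ← hw, inner_add_right, real_inner_smul_right, hue, mul_zero, add_zero,
        huv]
    rw [hwn, hxu]
    have h4 : B ((orth u' (T w) : (ℝ ∙ e)ᗮ) : V) ((orth u' (T w) : (ℝ ∙ e)ᗮ) : V) =
        2 * (‖orth u' w‖ ^ 2 - ⟪u', w⟫ ^ 2) + a * ⟪u', T w⟫ ^ 2 := by linarith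
    rw [h4]
    field_simp
    ring

end Pool.Schoen
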